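import Mathlib

/-!
# Stationary curves in a Hilbert space and their spectral measures

A curve whose spectral measure lives on the unit sphere is orthogonal to every jointly stationary
curve whose spectral measure does not charge the unit sphere.
-/

set_option autoImplicit false
set_option linter.unusedSectionVars false
open MeasureTheory Filter Topology ProbabilityTheory Complex
open scoped ENNReal NNReal ComplexConjugate

namespace Pool.Agent.KS6_61.RW

noncomputable section

variable {V : Type*} [NormedAddCommGroup V] [InnerProductSpace ℝ V] [FiniteDimensional ℝ V]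
  [MeasurableSpace V] [BorelSpace V]
variable {H : Type*} [NormedAddCommGroup H] [InnerProductSpace ℂ H] [CompleteSpace H]

/-- stationary curve with spectral measure `τ` -/
def SpecH (u : V → H) (τ : Measure V) : Prop :=
  ∀ y z, inner ℂ (u y) (u z) = charFun τ (z - y)

lemma SpecH.norm_sq {u : V → H} {τ : Measure V} (h : SpecH u τ) (y : V) :
    ‖u y‖ ^ 2 = (charFun τ 0).re := by
  have h1 := h y y
  rw [sub_self] at h1
  rw [← h1, inner_self_eq_norm_sq_to_K]
  norm_cast

lemma SpecH.cont {u : V → H} {τ : Measure V} [IsFiniteMeasure τ] (h : SpecH u τ) :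
    Continuous u := by
  rw [continuous_iff_continuousAt]
  intro y
  have e : ∀ z, ‖u z - u y‖ ^ 2 = 2 * (charFun τ 0).re - 2 * (charFun τ (y - z)).re := by
    intro z
    have h1 := norm_sub_sq (𝕜 := ℂ) (u z) (u y)
    rw [h.norm_sq, h.norm_sq, h z y] at h1
    rw [h1]
    simp only [RCLike.re_to_complex]
    ring
  have c1 : Continuous fun z => 2 * (charFun τ 0).re - 2 * (charFun τ (y - z)).re := by
    have := (MeasureTheory.continuous_charFun (μ := τ)).comp (continuous_const.sub continuous_id :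
      Continuous fun z : V => y - z)
    exact continuous_const.sub (continuous_const.mul (Complex.continuous_re.comp this))
  have t1 : Tendsto (fun z => ‖u z - u y‖ ^ 2) (𝓝 y) (𝓝 0) := by
    simp only [e]
    have := c1.tendsto y
    rw [sub_self] at this
    simpa using this
  have t2 : Tendsto (fun z => ‖u z - u y‖) (𝓝 y) (𝓝 0) := by
    have := (Real.continuous_sqrt.tendsto 0).comp t1
    rw [Real.sqrt_zero] at this
    refine this.congr fun z => ?_
    simp [Real.sqrt_sq (norm_nonneg _)]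
  exact tendsto_iff_norm_sub_tendsto_zero.2 t2

lemma SpecH.norm_eq {u : V → H} {τ : Measure V} (h : SpecH u τ) (y : V) :
    ‖u y‖ = ‖u 0‖ := by
  have h1 := h.norm_sq y
  have h2 := h.norm_sq 0
  rw [← h2] at h1
  exact (sq_eq_sq₀ (norm_nonneg _) (norm_nonneg _)).1 h1

lemma SpecH.integrable {u : V → H} {τ : Measure V} [IsFiniteMeasure τ] (h : SpecH u τ)
    (κ : Measure V) [IsFiniteMeasure κ] : Integrable u κ :=
  (integrable_const (‖u 0‖ : ℝ)).mono' h.cont.aestronglyMeasurable
    (ae_of_all _ fun y => (h.norm_eq y).le)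

lemma char_cont (s : ℝ) : Continuous fun p : V × V =>
    Complex.exp ((s * inner ℝ p.2 p.1 : ℝ) * Complex.I) := by
  fun_prop

lemma char_norm (s : ℝ) (p : V × V) :
    ‖Complex.exp ((s * inner ℝ p.2 p.1 : ℝ) * Complex.I)‖ = 1 :=
  Complex.norm_exp_ofReal_mul_I _

/-- exchange of the integrations -/
lemma swap (τ κ : Measure V) [IsFiniteMeasure τ] [IsFiniteMeasure κ] (s : ℝ) {g : V → ℂ}
    (hg : Continuous g) {B : ℝ} (hB : ∀ ξ, ‖g ξ‖ ≤ B) :
    ∫ y, (∫ ξ, Complex.exp ((s * inner ℝ ξ y : ℝ) * Complex.I) * g ξ ∂τ) ∂κ =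
      ∫ ξ, charFun κ (s • ξ) * g ξ ∂τ := by
  have hint : Integrable (Function.uncurry fun y ξ : V =>
      Complex.exp ((s * inner ℝ ξ y : ℝ) * Complex.I) * g ξ) (κ.prod τ) := by
    refine (integrable_const B).mono' ?_ ?_
    · exact ((char_cont s).mul (hg.comp continuous_snd)).aestronglyMeasurable
    · refine ae_of_all _ fun p => ?_
      have e : Function.uncurry (fun y ξ : V =>
        Complex.exp ((s * inner ℝ ξ y : ℝ) * Complex.I) * g ξ) p =
        Complex.exp ((s * inner ℝ p.2 p.1 : ℝ) * Complex.I) * g p.2 := rfl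
      rw [e, norm_mul, char_norm, one_mul]
      exact hB _
  rw [integral_integral_swap hint]
  congr 1; funext ξ
  rw [integral_mul_const, charFun_apply]
  congr 2; funext y
  rw [inner_smul_right, real_inner_comm y ξ]

lemma charFun_bdd (κ : Measure V) [IsFiniteMeasure κ] (ξ : V) :
    ‖charFun κ ξ‖ ≤ κ.real Set.univ := norm_charFun_le ξ

/-- the inner product of two averages -/
lemma inner_int {u : V → H} {τ : Measure V} [IsFiniteMeasure τ] (h : SpecH u τ)
    (κ κ' : Measure V) [IsFiniteMeasure κ] [IsFiniteMeasure κ'] :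
    inner ℂ (∫ y, u y ∂κ) (∫ y, u y ∂κ') =
      ∫ ξ, conj (charFun κ ξ) * charFun κ' ξ ∂τ := by
  have s1 : ∀ v : H, inner ℂ (∫ y, u y ∂κ) v = ∫ y, inner ℂ (u y) v ∂κ := by
    intro v
    rw [← inner_conj_symm, ← integral_inner (h.integrable κ), ← integral_conj]
    congr 1; funext y
    rw [inner_conj_symm]
  have s2 : ∀ y, inner ℂ (u y) (∫ z, u z ∂κ') =
      ∫ ξ, Complex.exp (((-1 : ℝ) * inner ℝ ξ y : ℝ) * Complex.I) * charFun κ' ξ ∂τ := by
    intro y
    rw [← integral_inner (h.integrable κ')]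
    simp only [h y]
    have e1 : ∀ z, charFun τ (z - y) = ∫ ξ, Complex.exp (((1 : ℝ) * inner ℝ ξ z : ℝ) * Complex.I) *
        Complex.exp (((-1 : ℝ) * inner ℝ ξ y : ℝ) * Complex.I) ∂τ := by
      intro z
      rw [charFun_apply]
      congr 1; funext ξ
      rw [← Complex.exp_add, inner_sub_right]
      congr 1
      push_cast
      ring
    simp only [e1]
    rw [swap τ κ' 1 (g := fun ξ => Complex.exp (((-1 : ℝ) * inner ℝ ξ y : ℝ) * Complex.I))
      (by fun_prop) (B := 1) (fun ξ => (Complex.norm_exp_ofReal_mul_I _).le)]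
    congr 1; funext ξ
    rw [one_smul, mul_comm]
  rw [s1]
  simp only [s2]
  rw [swap τ κ (-1) (g := charFun κ') (MeasureTheory.continuous_charFun) (charFun_bdd κ')]
  congr 1; funext ξ
  rw [neg_smul, one_smul, charFun_neg]

/-- the Gaussian law with characteristic function `2 ^ (- j |ξ|²)` -/
def kap (V : Type*) [NormedAddCommGroup V] [InnerProductSpace ℝ V] [FiniteDimensional ℝ V]
    [MeasurableSpace V] [BorelSpace V] (j : ℕ) : Measure V :=
  (stdGaussian V).map (fun y => (√(2 * j * Real.log 2)) • y)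

instance (j : ℕ) : IsProbabilityMeasure (kap V j) :=
  Measure.isProbabilityMeasure_map (by fun_prop)

/-- `2 ^ (- |ξ|²)` -/
def aa (ξ : V) : ℝ := Real.exp (-(Real.log 2 * ‖ξ‖ ^ 2))

lemma kap_char (j : ℕ) (ξ : V) : charFun (kap V j) ξ = ((aa ξ ^ j : ℝ) : ℂ) := by
  have h0 : 0 ≤ 2 * (j : ℝ) * Real.log 2 :=
    mul_nonneg (by positivity) (Real.log_nonneg (by norm_num))
  rw [kap, charFun_map_smul, charFun_stdGaussian, norm_smul, aa, ← Real.exp_nat_mul]
  rw [Real.norm_eq_abs, abs_of_nonneg (Real.sqrt_nonneg _)]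
  push_cast
  rw [mul_pow, ← Complex.ofReal_pow, Real.sq_sqrt h0]
  congr 1
  push_cast
  ring

lemma kap_zero : kap V 0 = Measure.dirac 0 := by
  have h : ∀ ξ : V, charFun (kap V 0) ξ = charFun (Measure.dirac (0 : V)) ξ := by
    intro ξ
    rw [kap_char, charFun_dirac]
    simp
  exact Measure.ext_of_charFun (funext h)

lemma kap_symm (j : ℕ) : (kap V j).map (fun y => -y) = kap V j := by
  have := Measure.isProbabilityMeasure_map (μ := kap V j) (f := fun y : V => -y) (by fun_prop)
  refine Measure.ext_of_charFun (funext fun ξ => ?_)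
  have e : (fun y : V => -y) = fun y => (-1 : ℝ) • y := by
    funext y; simp
  rw [e, charFun_map_smul, kap_char, kap_char]
  simp [aa]

/-- the polynomial `p` of the averaging operator, applied to the curve -/
def op (u : V → H) : Polynomial ℝ →ₗ[ℝ] H :=
  Polynomial.lsum fun j => LinearMap.toSpanSingleton ℝ H (∫ y, u y ∂(kap V j))

lemma op_apply (u : V → H) (p : Polynomial ℝ) :
    op u p = ∑ j ∈ p.support, (p.coeff j : ℂ) • ∫ y, u y ∂(kap V j) := by
  rw [op, Polynomial.lsum_apply, Polynomial.sum_def]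
  refine Finset.sum_congr rfl fun j _ => ?_
  rw [LinearMap.toSpanSingleton_apply]
  exact (Complex.coe_smul _ _).symm

lemma op_norm {u : V → H} {τ : Measure V} [IsFiniteMeasure τ] (h : SpecH u τ)
    (p : Polynomial ℝ) : ‖op u p‖ ^ 2 = ∫ ξ, (p.eval (aa ξ)) ^ 2 ∂τ := by
  have hab : ∀ ξ : V, |aa ξ| ≤ 1 := fun ξ => by
    rw [aa, abs_of_pos (Real.exp_pos _), Real.exp_le_one_iff]
    have : 0 ≤ Real.log 2 := Real.log_nonneg (by norm_num)
    nlinarith [mul_nonneg this (sq_nonneg ‖ξ‖)]
  have hac : Continuous (aa : V → ℝ) := by unfold aa; fun_prop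
  have e1 : inner ℂ (op u p) (op u p) = ∑ i ∈ p.support, ∑ j ∈ p.support,
      ∫ ξ, ((p.coeff i * p.coeff j * (aa ξ ^ i * aa ξ ^ j) : ℝ) : ℂ) ∂τ := by
    rw [op_apply, sum_inner]
    refine Finset.sum_congr rfl fun i _ => ?_
    rw [inner_sum]
    refine Finset.sum_congr rfl fun j _ => ?_
    rw [inner_smul_left, inner_smul_right, inner_int h, ← mul_assoc, ← integral_const_mul]
    congr 1; funext ξ
    rw [kap_char, kap_char, Complex.conj_ofReal, Complex.conj_ofReal]
    push_cast
    ring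
  have hint : ∀ i j, Integrable (fun ξ => p.coeff i * p.coeff j * (aa ξ ^ i * aa ξ ^ j)) τ := by
    intro i j
    refine (integrable_const |p.coeff i * p.coeff j|).mono' (by fun_prop) (ae_of_all _ fun ξ => ?_)
    rw [Real.norm_eq_abs, abs_mul]
    have : |aa ξ ^ i * aa ξ ^ j| ≤ 1 := by
      rw [← pow_add, abs_pow]
      exact pow_le_one₀ (abs_nonneg _) (hab ξ)
    nlinarith [abs_nonneg (p.coeff i * p.coeff j)]
  have e2 : (‖op u p‖ ^ 2 : ℝ) = ∑ i ∈ p.support, ∑ j ∈ p.support,
      ∫ ξ, (p.coeff i * p.coeff j * (aa ξ ^ i * aa ξ ^ j)) ∂τ := by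
    rw [inner_self_eq_norm_sq_to_K] at e1
    have e3 : ∀ i j, ∫ ξ, ((p.coeff i * p.coeff j * (aa ξ ^ i * aa ξ ^ j) : ℝ) : ℂ) ∂τ =
      ((∫ ξ, (p.coeff i * p.coeff j * (aa ξ ^ i * aa ξ ^ j)) ∂τ : ℝ) : ℂ) :=
      fun i j => integral_ofReal
    simp only [e3] at e1
    refine Complex.ofReal_injective ?_
    rw [Complex.ofReal_pow, Complex.ofReal_sum]
    simp only [Complex.ofReal_sum]
    exact e1
  rw [e2]
  simp_rw [← integral_finsetSum _ fun j _ => hint _ j]
  rw [← integral_finsetSum _ fun i _ => integrable_finsetSum _ fun j _ => hint i j]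
  congr 1; funext ξ
  rw [Polynomial.eval_eq_sum, Polynomial.sum_def, sq, Finset.sum_mul_sum]
  refine Finset.sum_congr rfl fun i _ => Finset.sum_congr rfl fun j _ => ?_
  ring

/-- the test polynomials -/
def pp (n : ℕ) : Polynomial ℝ := (Polynomial.C 4 * Polynomial.X * (1 - Polynomial.X)) ^ n

lemma pp_eval (n : ℕ) (x : ℝ) : (pp n).eval x = (4 * x * (1 - x)) ^ n := by
  simp [pp]

lemma aa_half {ξ : V} (h : ‖ξ‖ = 1) : aa ξ = 1 / 2 := by
  rw [aa, h, one_pow, mul_one, Real.exp_neg, Real.exp_log (by norm_num)]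
  norm_num

lemma aa_ne {ξ : V} (h : ‖ξ‖ ≠ 1) : aa ξ ≠ 1 / 2 := by
  intro h1
  rw [aa] at h1
  have h2 : Real.exp (-(Real.log 2 * ‖ξ‖ ^ 2)) = Real.exp (-(Real.log 2)) := by
    rw [h1, Real.exp_neg, Real.exp_log (by norm_num)]; norm_num
  have h3 := Real.exp_injective h2
  have h4 : Real.log 2 > 0 := Real.log_pos (by norm_num)
  have h5 : ‖ξ‖ ^ 2 = 1 := by
    have : Real.log 2 * (‖ξ‖ ^ 2 - 1) = 0 := by linarith
    rcases mul_eq_zero.1 this with h | h
    · linarith
    · linarith
  exact h ((pow_eq_one_iff_of_nonneg (norm_nonneg ξ) (by norm_num)).1 h5)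

lemma aa_mem (ξ : V) : 0 < aa ξ ∧ aa ξ ≤ 1 := by
  refine ⟨Real.exp_pos _, ?_⟩
  rw [aa, Real.exp_le_one_iff]
  have : 0 ≤ Real.log 2 := Real.log_nonneg (by norm_num)
  nlinarith [mul_nonneg this (sq_nonneg ‖ξ‖)]

/-- waves are fixed -/
lemma op_wave {f : V → H} {σ : Measure V} [IsFiniteMeasure σ] (h : SpecH f σ)
    (hσ : ∀ᵐ ξ ∂σ, ‖ξ‖ = 1) (n : ℕ) : op f (pp n) = f 0 := by
  have h1 : op f (pp n - 1) = 0 := by
    have e := op_norm h (pp n - 1)
    have e0 : ∫ ξ, ((pp n - 1).eval (aa ξ)) ^ 2 ∂σ = 0 := by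
      refine integral_eq_zero_of_ae ?_
      filter_upwards [hσ] with ξ hξ
      rw [Polynomial.eval_sub, pp_eval, aa_half hξ, Polynomial.eval_one]
      norm_num
    rw [e0] at e
    simpa using e
  have h2 : op f 1 = f 0 := by
    rw [← Polynomial.C_1, op, Polynomial.lsum_apply, Polynomial.sum_C_index]
    · rw [LinearMap.toSpanSingleton_apply, one_smul, kap_zero, integral_dirac]
    · simp
  rw [map_sub, h2, sub_eq_zero] at h1
  exact h1

/-- the averages of the other curve tend to zero -/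
lemma op_small {u : V → H} {τ : Measure V} [IsFiniteMeasure τ] (h : SpecH u τ)
    (hτ : τ {ξ | ‖ξ‖ = 1} = 0) : Tendsto (fun n => ‖op u (pp n)‖) atTop (𝓝 0) := by
  have hac : Continuous (aa : V → ℝ) := by unfold aa; fun_prop
  have t1 : Tendsto (fun n => ∫ ξ, ((pp n).eval (aa ξ)) ^ 2 ∂τ) atTop (𝓝 (∫ _ξ : V, (0 : ℝ) ∂τ)) := by
    refine tendsto_integral_of_dominated_convergence (fun _ => (1 : ℝ)) (fun n => ?_)
      (integrable_const _) (fun n => ae_of_all _ fun ξ => ?_) ?_
    · simp only [pp_eval]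
      exact Continuous.aestronglyMeasurable (by fun_prop)
    · rw [pp_eval, Real.norm_eq_abs, abs_of_nonneg (sq_nonneg _), ← pow_mul]
      obtain ⟨h1, h2⟩ := aa_mem ξ
      refine pow_le_one₀ (by nlinarith) ?_
      nlinarith [sq_nonneg (2 * aa ξ - 1)]
    · have h1 : ∀ᵐ ξ ∂τ, ‖ξ‖ ≠ 1 := by
        rw [ae_iff]; simpa using hτ
      filter_upwards [h1] with ξ hξ
      simp only [pp_eval, ← pow_mul]
      obtain ⟨h1, h2⟩ := aa_mem ξ
      have h3 : 0 < (2 * aa ξ - 1) ^ 2 := by
        refine sq_pos_of_ne_zero ?_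
        intro h; exact aa_ne hξ (by linarith)
      have h4 := tendsto_pow_atTop_nhds_zero_of_lt_one (r := (4 * aa ξ * (1 - aa ξ)) ^ 2)
        (sq_nonneg _) (by
          refine pow_lt_one₀ (by nlinarith) (by nlinarith) (by norm_num))
      refine h4.congr fun n => ?_
      rw [← pow_mul, mul_comm 2 n]
  rw [integral_zero] at t1
  simp only [← op_norm h] at t1
  have := (Real.continuous_sqrt.tendsto 0).comp t1
  rw [Real.sqrt_zero] at this
  refine this.congr fun n => ?_
  simp [Real.sqrt_sq (norm_nonneg _)]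

/-- the averaging operator is symmetric -/
lemma op_symm {f u : V → H} {σ τ : Measure V} [IsFiniteMeasure σ] [IsFiniteMeasure τ]
    (hf : SpecH f σ) (hu : SpecH u τ)
    (hc : ∀ y, inner ℂ (f y) (u 0) = inner ℂ (f 0) (u (-y))) (p : Polynomial ℝ) :
    inner ℂ (op f p) (u 0) = inner ℂ (f 0) (op u p) := by
  rw [op_apply, op_apply, sum_inner, inner_sum]
  refine Finset.sum_congr rfl fun j _ => ?_
  rw [inner_smul_left, inner_smul_right, Complex.conj_ofReal]
  congr 1
  rw [← integral_inner (hu.integrable _), ← inner_conj_symm, ← integral_inner (hf.integrable _),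
    ← integral_conj]
  simp only [inner_conj_symm, hc]
  have m : Measurable fun y : V => -y := by fun_prop
  have e := integral_map (μ := kap V j) (φ := fun y : V => -y) m.aemeasurable
    (f := fun y => inner ℂ (f 0) (u y))
    (Continuous.aestronglyMeasurable (continuous_const.inner hu.cont))
  rw [kap_symm] at e
  rw [e]

/-- **Orthogonality.** A curve with spectral measure on the unit sphere is orthogonal to every
jointly stationary curve whose spectral measure does not charge the unit sphere. -/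
theorem key {f u : V → H} {σ τ : Measure V} [IsFiniteMeasure σ] [IsFiniteMeasure τ]
    (hf : SpecH f σ) (hu : SpecH u τ) (hσ : ∀ᵐ ξ ∂σ, ‖ξ‖ = 1) (hτ : τ {ξ | ‖ξ‖ = 1} = 0)
    (hc : ∀ y, inner ℂ (f y) (u 0) = inner ℂ (f 0) (u (-y))) :
    inner ℂ (f 0) (u 0) = 0 := by
  have h1 : ∀ n, inner ℂ (f 0) (u 0) = inner ℂ (f 0) (op u (pp n)) := by
    intro n
    rw [← op_symm hf hu hc, op_wave hf hσ]
  have h2 : ∀ n, ‖inner ℂ (f 0) (u 0)‖ ≤ ‖f 0‖ * ‖op u (pp n)‖ := by
    intro n
    rw [h1 n]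
    exact norm_inner_le_norm _ _
  have h3 : Tendsto (fun n => ‖f 0‖ * ‖op u (pp n)‖) atTop (𝓝 (‖f 0‖ * 0)) :=
    (op_small hu hτ).const_mul _
  rw [mul_zero] at h3
  have h4 := ge_of_tendsto' h3 h2
  exact norm_le_zero_iff.1 h4

end

end Pool.Agent.KS6_61.RW
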