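import Pool.Graph.R_pool_sql_team_seeded_64922ed1.X127.SW.Boch
import Pool.Agent.KS6_61.RW.Hilb

/-!
# Stationary curves with real covariance have a spectral measure
-/

set_option autoImplicit false
set_option linter.unusedSectionVars false
open MeasureTheory Filter Topology ProbabilityTheory
open scoped ENNReal NNReal ComplexConjugate

namespace Pool.Agent.KS6_61.RW

noncomputable section

open Pool.Agent.H506R3.Mag (PSDFun)

variable {V : Type*} [NormedAddCommGroup V] [InnerProductSpace ℝ V] [FiniteDimensional ℝ V]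
  [MeasurableSpace V] [BorelSpace V]
variable {H : Type*} [NormedAddCommGroup H] [InnerProductSpace ℂ H] [CompleteSpace H]

lemma inner_self_real (x : H) : inner ℂ x x = ((‖x‖ ^ 2 : ℝ) : ℂ) := by
  rw [inner_self_eq_norm_sq_to_K, Complex.ofReal_pow]
  rfl

lemma exists_specH {u : V → H} (cu : Continuous u) {C : V → ℝ}
    (h : ∀ y z, inner ℂ (u y) (u z) = (C (z - y) : ℂ)) :
    ∃ τ : Measure V, IsFiniteMeasure τ ∧ SpecH u τ := by
  have h0 : ∀ y, ‖u y‖ ^ 2 = C 0 := by
    intro y
    have h1 := h y y
    rw [sub_self, inner_self_real] at h1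
    exact Complex.ofReal_injective h1
  have hn : 0 ≤ C 0 := (h0 0) ▸ sq_nonneg _
  have he : ∀ x, C (-x) = C x := by
    intro x
    have h1 := h x 0
    have h2 := h 0 x
    rw [zero_sub] at h1
    rw [sub_zero] at h2
    rw [← inner_conj_symm, h2, Complex.conj_ofReal] at h1
    exact_mod_cast h1.symm
  have hc : Continuous C := by
    have e : C = fun x => (inner ℂ (u 0) (u x)).re := by
      funext x
      rw [h 0 x, sub_zero, Complex.ofReal_re]
    rw [e]
    exact Complex.continuous_re.comp (continuous_const.inner cu)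
  rcases hn.eq_or_lt with h1 | h1
  · refine ⟨0, inferInstance, fun y z => ?_⟩
    have h2 : u y = 0 := by
      have := h0 y
      rw [← h1] at this
      simpa using this
    rw [h2, inner_zero_left]
    simp
  · obtain ⟨ρ, hρ, hρc⟩ := Pool.Agent.X127.SW.bochner_full (V := V) (C := fun x => C x / C 0) (by
        intro t w
        have e1 : (‖∑ x ∈ t, (w x : ℂ) • u x‖ ^ 2 : ℝ) =
            ∑ x ∈ t, ∑ y ∈ t, w x * w y * C (x - y) := by
          have h2 : inner ℂ (∑ x ∈ t, (w x : ℂ) • u x) (∑ x ∈ t, (w x : ℂ) • u x) =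
              ((∑ x ∈ t, ∑ y ∈ t, w x * w y * C (x - y) : ℝ) : ℂ) := by
            rw [sum_inner]
            push_cast
            refine Finset.sum_congr rfl fun x _ => ?_
            rw [inner_sum]
            refine Finset.sum_congr rfl fun y _ => ?_
            rw [inner_smul_left, inner_smul_right, h, Complex.conj_ofReal, ← neg_sub x y, he]
            ring
          rw [inner_self_real] at h2
          exact Complex.ofReal_injective h2
        have e2 : ∑ x ∈ t, ∑ y ∈ t, w x * w y * (C (x - y) / C 0) =
            (∑ x ∈ t, ∑ y ∈ t, w x * w y * C (x - y)) / C 0 := by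
          rw [Finset.sum_div]
          refine Finset.sum_congr rfl fun x _ => ?_
          rw [Finset.sum_div]
          refine Finset.sum_congr rfl fun y _ => ?_
          ring
        rw [e2, ← e1]
        exact div_nonneg (sq_nonneg _) h1.le)
      (hc.div_const _) (fun x => by rw [he]) (div_self h1.ne')
    refine ⟨ENNReal.ofReal (C 0) • ρ, Measure.smul_finite _ (by simp), fun y z => ?_⟩
    rw [h, charFun_apply, integral_smul_measure, ← charFun_apply, hρc,
      ENNReal.toReal_ofReal hn, Complex.real_smul, ← Complex.ofReal_mul]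
    congr 1
    field_simp

/-- a symmetric version of a finite measure -/
lemma exists_symm (σ : Measure V) [IsFiniteMeasure σ] (hσ : ∀ᵐ ξ ∂σ, ‖ξ‖ = 1) :
    ∃ τ : Measure V, IsFiniteMeasure τ ∧ (∀ᵐ ξ ∂τ, ‖ξ‖ = 1) ∧
      ∀ x, charFun τ x = ((charFun σ x).re : ℂ) := by
  have mn : Measurable fun ξ : V => (-1 : ℝ) • ξ := by fun_prop
  have := Measure.isFiniteMeasure_map σ (fun ξ : V => (-1 : ℝ) • ξ)
  refine ⟨(2 : ℝ≥0∞)⁻¹ • (σ + σ.map (fun ξ => (-1 : ℝ) • ξ)),
    Measure.smul_finite _ (by simp), ?_, fun x => ?_⟩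
  · refine Measure.ae_smul_measure ?_ _
    rw [ae_add_measure_iff]
    refine ⟨hσ, ?_⟩
    rw [ae_map_iff mn.aemeasurable (isClosed_eq (by fun_prop) continuous_const).measurableSet]
    filter_upwards [hσ] with ξ hξ
    rw [norm_smul, hξ]; simp
  · have i1 : ∀ ν : Measure V, IsFiniteMeasure ν →
        Integrable (fun ξ : V => Complex.exp (inner ℝ ξ x * Complex.I)) ν := fun ν _ =>
      (integrable_const (1 : ℝ)).mono' (by fun_prop)
        (ae_of_all _ fun ξ => (Complex.norm_exp_ofReal_mul_I _).le)
    rw [charFun_apply, integral_smul_measure, integral_add_measure (i1 _ inferInstance)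
      (i1 _ inferInstance), ← charFun_apply, ← charFun_apply, charFun_map_smul, neg_smul, one_smul,
      charFun_neg, Complex.add_conj]
    simp only [ENNReal.toReal_inv, ENNReal.toReal_ofNat, Complex.real_smul]
    push_cast
    ring

end

end Pool.Agent.KS6_61.RW
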