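import Pool.Agent.KS6_61.RW.Geom

/-!
# The nonlinear part of the exponential of a diffuse measure

For a finite measure `σ` the measure `∑_{n ≥ 2} e^{-v} σ^{*n} / n!` has the characteristic function
`e^{-v} (e^ρ - 1 - ρ)`, where `ρ` is the one of `σ`. If `σ` is diffuse it does not charge the unit
sphere.
-/

set_option autoImplicit false
set_option linter.unusedSectionVars false
open MeasureTheory Filter Topology
open scoped ENNReal NNReal

namespace Pool.Agent.KS6_61.RW

noncomputable section

variable {V : Type*} [NormedAddCommGroup V] [InnerProductSpace ℝ V] [FiniteDimensional ℝ V]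
  [MeasurableSpace V] [BorelSpace V]

/-- convolution powers -/
def cp (σ : Measure V) : ℕ → Measure V
  | 0 => Measure.dirac 0
  | n + 1 => σ ∗ cp σ n

instance cp_fin (σ : Measure V) [IsFiniteMeasure σ] (n : ℕ) : IsFiniteMeasure (cp σ n) := by
  induction n with
  | zero => unfold cp; infer_instance
  | succ n ih => unfold cp; infer_instance

lemma cp_char (σ : Measure V) [IsFiniteMeasure σ] (n : ℕ) (y : V) :
    charFun (cp σ n) y = charFun σ y ^ n := by
  induction n with
  | zero => rw [cp, charFun_dirac]; simp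
  | succ n ih => rw [cp, charFun_conv, ih, pow_succ, mul_comm]

lemma cp_null (σ : Measure V) [IsFiniteMeasure σ] [NullSingletonClass σ] (n : ℕ) :
    NullSingletonClass (cp σ (n + 1)) := by
  rw [cp, Measure.conv_comm]
  exact conv_noAtoms _ _

lemma cp_sphere (σ : Measure V) [IsFiniteMeasure σ] [NullSingletonClass σ]
    (h : Module.finrank ℝ V ≤ 3 ∨ NoHyp σ) (n : ℕ) :
    cp σ (n + 2) {ξ | ‖ξ‖ = 1} = 0 := by
  have := cp_null σ n
  rw [show n + 2 = (n + 1) + 1 from rfl, cp]
  refine conv_sphere σ (cp σ (n + 1)) ?_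
  rcases h with h | h
  · exact Or.inl ⟨h, inferInstance⟩
  · exact Or.inr h

lemma cp_real (σ : Measure V) [IsFiniteMeasure σ] (n : ℕ) :
    (cp σ n).real Set.univ = σ.real Set.univ ^ n := by
  have h := cp_char σ n 0
  rw [charFun_zero, charFun_zero] at h
  exact_mod_cast h

lemma cp_univ (σ : Measure V) [IsFiniteMeasure σ] (n : ℕ) :
    cp σ n Set.univ = ENNReal.ofReal (σ.real Set.univ ^ n) := by
  rw [← cp_real, Measure.real, ENNReal.ofReal_toReal (measure_ne_top _ _)]

/-- the weights -/
def wt (v : ℝ) (n : ℕ) : ℝ := Real.exp (-v) / (n + 2).factorial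

/-- the nonlinear part of the exponential -/
def ex (σ : Measure V) : Measure V :=
  Measure.sum fun n => ENNReal.ofReal (wt (σ.real Set.univ) n) • cp σ (n + 2)

lemma wt_nonneg (v : ℝ) (n : ℕ) : 0 ≤ wt v n := by unfold wt; positivity

lemma exp_tail (z : ℂ) : HasSum (fun n : ℕ => z ^ (n + 2) / (n + 2).factorial)
    (Complex.exp z - 1 - z) := by
  have h : HasSum (fun n : ℕ => z ^ n / n.factorial) (Complex.exp z) := by
    rw [Complex.exp_eq_exp_ℂ]
    exact NormedSpace.expSeries_div_hasSum_exp z
  have h2 := (hasSum_nat_add_iff' 2).2 h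
  have h3 : ∑ i ∈ Finset.range 2, z ^ i / (i.factorial : ℂ) = 1 + z := by
    simp [Finset.sum_range_succ]
  rw [h3] at h2
  rw [sub_sub]
  exact h2

lemma wt_summable (v : ℝ) : Summable fun n => wt v n * v ^ (n + 2) := by
  have h := (exp_tail (v : ℂ)).summable
  have h1 : Summable fun n : ℕ => ((v ^ (n + 2) / (n + 2).factorial : ℝ) : ℂ) := by
    refine h.congr fun n => ?_
    push_cast; rfl
  have h2 : Summable fun n : ℕ => (v ^ (n + 2) / (n + 2).factorial : ℝ) :=
    Complex.summable_ofReal.1 h1
  refine (h2.mul_left (Real.exp (-v))).congr fun n => ?_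
  unfold wt; ring

instance ex_fin (σ : Measure V) [IsFiniteMeasure σ] : IsFiniteMeasure (ex σ) := by
  refine ⟨?_⟩
  rw [ex, Measure.sum_apply _ MeasurableSet.univ]
  have e : ∀ n, (ENNReal.ofReal (wt (σ.real Set.univ) n) • cp σ (n + 2)) Set.univ =
      ENNReal.ofReal (wt (σ.real Set.univ) n * σ.real Set.univ ^ (n + 2)) := by
    intro n
    rw [Measure.smul_apply, cp_univ, smul_eq_mul, ENNReal.ofReal_mul (wt_nonneg _ _)]
  simp only [e]
  rw [← ENNReal.ofReal_tsum_of_nonneg
    (fun n => mul_nonneg (wt_nonneg _ _) (pow_nonneg measureReal_nonneg _)) (wt_summable _)]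
  exact ENNReal.ofReal_lt_top

lemma ex_char (σ : Measure V) [IsFiniteMeasure σ] (y : V) :
    charFun (ex σ) y = (Real.exp (-(σ.real Set.univ)) : ℂ) *
      (Complex.exp (charFun σ y) - 1 - charFun σ y) := by
  have hi : Integrable (fun x : V => Complex.exp (inner ℝ x y * Complex.I)) (ex σ) := by
    refine (integrable_const (1 : ℝ)).mono' (by fun_prop) (ae_of_all _ fun x => ?_)
    exact (Complex.norm_exp_ofReal_mul_I _).le
  rw [charFun_apply]
  have h := hasSum_integral_measure (f := fun x : V => Complex.exp (inner ℝ x y * Complex.I))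
    (μ := fun n => ENNReal.ofReal (wt (σ.real Set.univ) n) • cp σ (n + 2)) hi
  have e : ∀ n, ∫ x, Complex.exp (inner ℝ x y * Complex.I)
      ∂(ENNReal.ofReal (wt (σ.real Set.univ) n) • cp σ (n + 2)) =
      (Real.exp (-(σ.real Set.univ)) : ℂ) * (charFun σ y ^ (n + 2) / (n + 2).factorial) := by
    intro n
    rw [integral_smul_measure, ← charFun_apply, cp_char, ENNReal.toReal_ofReal (wt_nonneg _ _), wt]
    rw [Complex.real_smul]
    push_cast
    ring
  simp only [e] at h
  exact h.unique ((exp_tail (charFun σ y)).mul_left _)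

lemma ex_sphere (σ : Measure V) [IsFiniteMeasure σ] [NullSingletonClass σ]
    (h : Module.finrank ℝ V ≤ 3 ∨ NoHyp σ) : ex σ {ξ | ‖ξ‖ = 1} = 0 := by
  have mS : MeasurableSet {ξ : V | ‖ξ‖ = 1} :=
    (isClosed_eq (by fun_prop) continuous_const).measurableSet
  rw [ex, Measure.sum_apply _ mS]
  simp only [Measure.smul_apply, cp_sphere σ h, smul_zero, tsum_zero]

end

end Pool.Agent.KS6_61.RW
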