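import Pool.Agent.KS6_61.RW.Geom
import Pool.Agent.KS6_61.RW.Hilb

/-!
# Diffuse spectral measures are stable under linear combinations
-/

set_option autoImplicit false
set_option linter.unusedSectionVars false
open MeasureTheory Filter Topology ProbabilityTheory Complex
open scoped ENNReal NNReal ComplexConjugate

namespace Pool.Agent.KS6_61.RW

noncomputable section

variable {V : Type*} [NormedAddCommGroup V] [InnerProductSpace ℝ V] [FiniteDimensional ℝ V]
  [MeasurableSpace V] [BorelSpace V]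
variable {H : Type*} [NormedAddCommGroup H] [InnerProductSpace ℂ H] [CompleteSpace H]

/-- modulation -/
def md (l : V) (u : V → H) (y : V) : H := Complex.exp (((-inner ℝ l y : ℝ) : ℂ) * Complex.I) • u y

lemma md_spec {u : V → H} {τ : Measure V} (h : SpecH u τ) (l : V) :
    SpecH (md l u) (τ.map (fun ξ => ξ + -l)) := by
  intro y z
  rw [charFun_map_add_const, md, md, inner_smul_left, inner_smul_right, h y z, ← Complex.exp_conj,
    map_mul, Complex.conj_I, Complex.conj_ofReal]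
  have e : Complex.exp (((-inner ℝ l y : ℝ) : ℂ) * -Complex.I) *
      Complex.exp (((-inner ℝ l z : ℝ) : ℂ) * Complex.I) =
      Complex.exp (((inner ℝ (-l) (z - y) : ℝ) : ℂ) * Complex.I) := by
    rw [← Complex.exp_add, inner_neg_left, inner_sub_right]
    congr 1
    push_cast
    ring
  rw [← mul_assoc, e, mul_comm]

lemma sh_spec {u : V → H} {τ : Measure V} (h : SpecH u τ) (x : V) :
    SpecH (fun y => u (y + x)) τ := by
  intro y z
  rw [h]
  congr 1
  abel

lemma avg_norm {u : V → H} {τ : Measure V} [IsFiniteMeasure τ] (h : SpecH u τ)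
    (κ : Measure V) [IsFiniteMeasure κ] :
    ‖∫ y, u y ∂κ‖ ^ 2 = ∫ ξ, ‖charFun κ ξ‖ ^ 2 ∂τ := by
  have e1 := inner_int h κ κ
  rw [inner_self_eq_norm_sq_to_K] at e1
  have e2 : ∀ ξ, conj (charFun κ ξ) * charFun κ ξ = ((‖charFun κ ξ‖ ^ 2 : ℝ) : ℂ) := by
    intro ξ
    rw [mul_comm, Complex.mul_conj, Complex.normSq_eq_norm_sq]
  simp only [e2] at e1
  have e3 : ∫ ξ, ((‖charFun κ ξ‖ ^ 2 : ℝ) : ℂ) ∂τ = ((∫ ξ, ‖charFun κ ξ‖ ^ 2 ∂τ : ℝ) : ℂ) :=
    integral_ofReal
  rw [e3] at e1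
  refine Complex.ofReal_injective ?_
  rw [Complex.ofReal_pow]
  exact e1

lemma lim_avg {κ : ℕ → Measure V} [∀ n, IsProbabilityMeasure (κ n)] {Z : Set V}
    (mZ : MeasurableSet Z)
    (hκ : ∀ ξ, Tendsto (fun n => ‖charFun (κ n) ξ‖ ^ 2) atTop
      (𝓝 (Z.indicator (fun _ => (1 : ℝ)) ξ)))
    {u : V → H} {τ : Measure V} [IsFiniteMeasure τ] (h : SpecH u τ) :
    Tendsto (fun n => ‖∫ y, u y ∂(κ n)‖ ^ 2) atTop (𝓝 (τ.real Z)) := by
  simp only [avg_norm h]
  have e : τ.real Z = ∫ ξ, Z.indicator (fun _ => (1 : ℝ)) ξ ∂τ := by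
    rw [integral_indicator mZ, setIntegral_const, smul_eq_mul, mul_one]
  rw [e]
  refine tendsto_integral_of_dominated_convergence (fun _ => (1 : ℝ)) (fun n => ?_)
    (integrable_const _) (fun n => ae_of_all _ fun ξ => ?_) (ae_of_all _ hκ)
  · exact ((MeasureTheory.continuous_charFun (μ := κ n)).norm.pow 2).aestronglyMeasurable
  · rw [Real.norm_eq_abs, abs_of_nonneg (sq_nonneg _)]
    have := norm_charFun_le_one (μ := κ n) ξ
    exact pow_le_one₀ (norm_nonneg _) this

/-- the basic step -/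
lemma comb_step {κ : ℕ → Measure V} [∀ n, IsProbabilityMeasure (κ n)] {Z : Set V}
    (mZ : MeasurableSet Z)
    (hκ : ∀ ξ, Tendsto (fun n => ‖charFun (κ n) ξ‖ ^ 2) atTop
      (𝓝 (Z.indicator (fun _ => (1 : ℝ)) ξ)))
    {K : Type*} (s : Finset K) (c : K → ℂ) (x : K → V) (u : K → V → H) (σ : K → Measure V)
    [∀ k, IsFiniteMeasure (σ k)] (hu : ∀ k, SpecH (u k) (σ k)) {U : V → H} {τ : Measure V}
    [IsFiniteMeasure τ] (hU : SpecH U τ) (e : ∀ y, U y = ∑ k ∈ s, c k • u k (y + x k)) (l : V)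
    (hz : ∀ k ∈ s, (σ k) {ξ | ξ + -l ∈ Z} = 0) : τ {ξ | ξ + -l ∈ Z} = 0 := by
  have mm : Measurable fun ξ : V => ξ + -l := by fun_prop
  have hk : ∀ k ∈ s, Tendsto (fun n => ‖∫ y, md l (u k) (y + x k) ∂(κ n)‖) atTop (𝓝 0) := by
    intro k hk
    have := Measure.isFiniteMeasure_map (σ k) (fun ξ => ξ + -l)
    have h1 := lim_avg mZ hκ (sh_spec (md_spec (hu k) l) (x k))
    have e0 : ((σ k).map (fun ξ => ξ + -l)).real Z = 0 := by
      rw [Measure.real, Measure.map_apply mm mZ]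
      have := hz k hk
      rw [show (fun ξ => ξ + -l) ⁻¹' Z = {ξ | ξ + -l ∈ Z} from rfl, this]
      rfl
    rw [e0] at h1
    have h2 := (Real.continuous_sqrt.tendsto 0).comp h1
    rw [Real.sqrt_zero] at h2
    refine h2.congr fun n => ?_
    simp [Real.sqrt_sq (norm_nonneg _)]
  have := Measure.isFiniteMeasure_map τ (fun ξ => ξ + -l)
  have h1 := lim_avg mZ hκ (md_spec hU l)
  have h2 : ∀ n, ‖∫ y, md l U y ∂(κ n)‖ ≤ ∑ k ∈ s, ‖c k‖ * ‖∫ y, md l (u k) (y + x k) ∂(κ n)‖ := by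
    intro n
    have e1 : ∀ y, md l U y = ∑ k ∈ s, (c k * Complex.exp (((inner ℝ l (x k) : ℝ) : ℂ) *
        Complex.I)) • md l (u k) (y + x k) := by
      intro y
      rw [md, e, Finset.smul_sum]
      refine Finset.sum_congr rfl fun k _ => ?_
      rw [md, smul_smul, smul_smul]
      congr 1
      have : Complex.exp (((-inner ℝ l y : ℝ) : ℂ) * Complex.I) =
          Complex.exp (((inner ℝ l (x k) : ℝ) : ℂ) * Complex.I) *
          Complex.exp (((-inner ℝ l (y + x k) : ℝ) : ℂ) * Complex.I) := by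
        rw [← Complex.exp_add, inner_add_right]
        congr 1
        push_cast
        ring
      rw [this]
      ring
    simp only [e1]
    have hi : ∀ k ∈ s, Integrable (fun y => (c k * Complex.exp (((inner ℝ l (x k) : ℝ) : ℂ) *
        Complex.I)) • md l (u k) (y + x k)) (κ n) := by
      intro k _
      have := Measure.isFiniteMeasure_map (σ k) (fun ξ => ξ + -l)
      exact ((sh_spec (md_spec (hu k) l) (x k)).integrable (κ n)).smul _
    rw [integral_finsetSum _ hi]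
    refine (norm_sum_le _ _).trans (Finset.sum_le_sum fun k _ => ?_)
    rw [integral_smul, norm_smul, norm_mul, Complex.norm_exp_ofReal_mul_I, mul_one]
  have h3 : Tendsto (fun n => ∑ k ∈ s, ‖c k‖ * ‖∫ y, md l (u k) (y + x k) ∂(κ n)‖) atTop
      (𝓝 (∑ k ∈ s, ‖c k‖ * 0)) :=
    tendsto_finsetSum _ fun k hk' => (hk k hk').const_mul _
  simp only [mul_zero, Finset.sum_const_zero] at h3
  have h4 : Tendsto (fun n => ‖∫ y, md l U y ∂(κ n)‖) atTop (𝓝 0) :=
    squeeze_zero (fun n => norm_nonneg _) h2 h3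
  have h5 := h4.pow 2
  rw [zero_pow (by norm_num)] at h5
  have h6 := tendsto_nhds_unique h1 h5
  rw [Measure.real, Measure.map_apply mm mZ, ENNReal.toReal_eq_zero_iff] at h6
  rcases h6 with h6 | h6
  · exact h6
  · exact absurd h6 (measure_ne_top _ _)

/-- isotropic Gaussian kernels -/
def g1 (V : Type*) [NormedAddCommGroup V] [InnerProductSpace ℝ V] [FiniteDimensional ℝ V]
    [MeasurableSpace V] [BorelSpace V] (n : ℕ) : Measure V :=
  (stdGaussian V).map (fun y => (n : ℝ) • y)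

instance (n : ℕ) : IsProbabilityMeasure (g1 V n) :=
  Measure.isProbabilityMeasure_map (by fun_prop)

/-- Gaussian kernels on a line -/
def g2 (e : V) (n : ℕ) : Measure V := (stdGaussian ℝ).map (fun t : ℝ => ((n : ℝ) * t) • e)

instance (e : V) (n : ℕ) : IsProbabilityMeasure (g2 e n) :=
  Measure.isProbabilityMeasure_map (by fun_prop)

lemma g1_char (n : ℕ) (ξ : V) : charFun (g1 V n) ξ =
    ((Real.exp (-((n : ℝ) ^ 2 * (‖ξ‖ ^ 2 / 2))) : ℝ) : ℂ) := by
  rw [g1, charFun_map_smul, charFun_stdGaussian, norm_smul]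
  push_cast
  congr 1
  simp only [Real.norm_natCast]
  push_cast
  ring

lemma g2_char (e : V) (n : ℕ) (ξ : V) : charFun (g2 e n) ξ =
    ((Real.exp (-((n : ℝ) ^ 2 * (inner ℝ e ξ ^ 2 / 2))) : ℝ) : ℂ) := by
  rw [g2, charFun_apply, integral_map (by fun_prop) (by fun_prop)]
  have e1 : ∀ t : ℝ, Complex.exp (inner ℝ (((n : ℝ) * t) • e) ξ * Complex.I) =
      Complex.exp (((inner ℝ t (n * inner ℝ e ξ) : ℝ) : ℂ) * Complex.I) := by
    intro t
    rw [inner_smul_left]
    congr 3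
    simp
    ring
  simp only [e1]
  rw [← charFun_apply, charFun_stdGaussian]
  push_cast
  congr 1
  rw [norm_mul, Real.norm_natCast, Real.norm_eq_abs]
  push_cast
  rw [mul_pow, ← Complex.ofReal_pow, sq_abs]
  push_cast
  ring

lemma exp_lim {a : ℝ} (ha : 0 < a) :
    Tendsto (fun n : ℕ => ‖((Real.exp (-((n : ℝ) ^ 2 * a)) : ℝ) : ℂ)‖ ^ 2) atTop (𝓝 0) := by
  have h1 : Tendsto (fun n : ℕ => Real.exp (-((n : ℝ) ^ 2 * a))) atTop (𝓝 0) := by
    refine Real.tendsto_exp_neg_atTop_nhds_zero.comp ?_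
    refine Tendsto.atTop_mul_const ha ?_
    exact (tendsto_pow_atTop (by norm_num)).comp tendsto_natCast_atTop_atTop
  have h2 := h1.pow 2
  rw [zero_pow (by norm_num)] at h2
  refine h2.congr fun n => ?_
  rw [Complex.norm_real, Real.norm_eq_abs, abs_of_pos (Real.exp_pos _)]

lemma g1_lim (ξ : V) : Tendsto (fun n => ‖charFun (g1 V n) ξ‖ ^ 2) atTop
    (𝓝 (({0} : Set V).indicator (fun _ => (1 : ℝ)) ξ)) := by
  simp only [g1_char]
  by_cases h : ξ = 0
  · rw [h]; simp
  · rw [Set.indicator_of_notMem (by simpa using h)]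
    exact exp_lim (by positivity)

lemma g2_lim (e ξ : V) : Tendsto (fun n => ‖charFun (g2 e n) ξ‖ ^ 2) atTop
    (𝓝 ({ξ : V | inner ℝ e ξ = 0}.indicator (fun _ => (1 : ℝ)) ξ)) := by
  simp only [g2_char]
  by_cases h : inner ℝ e ξ = 0
  · rw [Set.indicator_of_mem (show ξ ∈ {ξ : V | inner ℝ e ξ = 0} from h), h]
    simp
  · rw [Set.indicator_of_notMem (show ξ ∉ {ξ : V | inner ℝ e ξ = 0} from h)]
    exact exp_lim (by positivity)

/-- no atoms -/
lemma null_comb {K : Type*} (s : Finset K) (c : K → ℂ) (x : K → V) (u : K → V → H)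
    (σ : K → Measure V) [∀ k, IsFiniteMeasure (σ k)] (hu : ∀ k, SpecH (u k) (σ k)) {U : V → H}
    {τ : Measure V} [IsFiniteMeasure τ] (hU : SpecH U τ)
    (e : ∀ y, U y = ∑ k ∈ s, c k • u k (y + x k))
    (hn : ∀ k ∈ s, NullSingletonClass (σ k)) : NullSingletonClass τ := by
  refine ⟨fun l => ?_⟩
  have h := comb_step (κ := g1 V) (measurableSet_singleton (0 : V)) g1_lim s c x u σ hu hU e l ?_
  · have e2 : {ξ : V | ξ + -l ∈ ({0} : Set V)} = {l} := by
      ext ξ
      simp only [Set.mem_ofPred_eq, Set.mem_singleton_iff]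
      rw [← sub_eq_add_neg, sub_eq_zero]
    rwa [e2] at h
  · intro k hk
    have := hn k hk
    have e2 : {ξ : V | ξ + -l ∈ ({0} : Set V)} = {l} := by
      ext ξ
      simp only [Set.mem_ofPred_eq, Set.mem_singleton_iff]
      rw [← sub_eq_add_neg, sub_eq_zero]
    rw [e2]
    exact measure_singleton l

/-- no charged hyperplanes -/
lemma hyp_comb {K : Type*} (s : Finset K) (c : K → ℂ) (x : K → V) (u : K → V → H)
    (σ : K → Measure V) [∀ k, IsFiniteMeasure (σ k)] (hu : ∀ k, SpecH (u k) (σ k)) {U : V → H}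
    {τ : Measure V} [IsFiniteMeasure τ] (hU : SpecH U τ)
    (e : ∀ y, U y = ∑ k ∈ s, c k • u k (y + x k))
    (hn : ∀ k ∈ s, NoHyp (σ k)) : NoHyp τ := by
  intro v r hv
  have hv2 : ‖v‖ ^ 2 ≠ 0 := by positivity
  have mZ : MeasurableSet {ξ : V | inner ℝ v ξ = 0} :=
    (isClosed_eq (by fun_prop) continuous_const).measurableSet
  have e2 : {ξ : V | ξ + -((r / ‖v‖ ^ 2) • v) ∈ {ξ : V | inner ℝ v ξ = 0}} =
      {x | inner ℝ x v = r} := by
    ext ξ
    simp only [Set.mem_ofPred_eq]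
    rw [inner_add_right, inner_neg_right, inner_smul_right, real_inner_self_eq_norm_sq,
      div_mul_cancel₀ _ hv2, real_inner_comm]
    constructor
    · intro h; linarith
    · intro h; linarith
  have h := comb_step (κ := g2 v) mZ (g2_lim v) s c x u σ hu hU e ((r / ‖v‖ ^ 2) • v) ?_
  · rwa [e2] at h
  · intro k hk
    rw [e2]
    exact hn k hk v r hv

end

end Pool.Agent.KS6_61.RW
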