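import Pool.Agent.KS6_61.RW.Gau

/-!
# Completeness of the exponentials of finite linear combinations of the coordinates
-/

set_option autoImplicit false
set_option linter.unusedSectionVars false
open MeasureTheory Filter Topology ProbabilityTheory
open scoped ENNReal NNReal ComplexConjugate

namespace Pool.Agent.KS6_61.RW

noncomputable section

variable {T : Type*} {Q : Measure (T → ℝ)} [IsProbabilityMeasure Q]

lemma lin_sum {K : Type*} (s : Finset K) (a : K → T →₀ ℝ) (ω : T → ℝ) :
    lin (∑ k ∈ s, a k) ω = ∑ k ∈ s, lin (a k) ω :=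
  map_sum (AddMonoidHom.mk' (fun a : T →₀ ℝ => lin a ω) fun a b => lin_add a b ω) a s

lemma dual_lin (I : Finset T) (L : StrongDual ℝ (I → ℝ)) :
    ∃ a : T →₀ ℝ, ∀ ω : T → ℝ, L (I.restrict ω) = lin a ω := by
  classical
  refine ⟨∑ i : I, Finsupp.single i.1 (L (fun j => if i = j then 1 else 0)), fun ω => ?_⟩
  rw [lin_sum]
  simp only [lin_single]
  have h := LinearMap.pi_apply_eq_sum_univ (L : (I → ℝ) →ₗ[ℝ] ℝ) (I.restrict ω)
  have h2 : L (I.restrict ω) = ∑ i : I, I.restrict ω i • L (fun j => if i = j then 1 else 0) := h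
  rw [h2]
  refine Finset.sum_congr rfl fun i _ => ?_
  rw [smul_eq_mul, mul_comm]
  rfl

/-- **Completeness.** An integrable function which is orthogonal to all exponentials vanishes. -/
theorem complete {g : (T → ℝ) → ℝ} (hg : Integrable g Q)
    (h : ∀ a : T →₀ ℝ, ∫ ω, (g ω : ℂ) * Complex.exp ((lin a ω : ℂ) * Complex.I) ∂Q = 0) :
    g =ᵐ[Q] 0 := by
  have mp : AEMeasurable (fun ω => ENNReal.ofReal (g ω)) Q := hg.1.aemeasurable.ennreal_ofReal
  have mm : AEMeasurable (fun ω => ENNReal.ofReal (-g ω)) Q :=
    hg.1.aemeasurable.neg.ennreal_ofReal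
  have fp : IsFiniteMeasure (Q.withDensity fun ω => ENNReal.ofReal (g ω)) :=
    isFiniteMeasure_withDensity_ofReal hg.2
  have fm : IsFiniteMeasure (Q.withDensity fun ω => ENNReal.ofReal (-g ω)) :=
    isFiniteMeasure_withDensity_ofReal hg.neg.2
  have hI : ∀ I : Finset T, (Q.withDensity fun ω => ENNReal.ofReal (-g ω)).map I.restrict =
      (Q.withDensity fun ω => ENNReal.ofReal (g ω)).map I.restrict := by
    intro I
    have mr : Measurable (I.restrict : (T → ℝ) → (I → ℝ)) := by fun_prop
    have := Measure.isFiniteMeasure_map (Q.withDensity fun ω => ENNReal.ofReal (-g ω)) I.restrict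
    have := Measure.isFiniteMeasure_map (Q.withDensity fun ω => ENNReal.ofReal (g ω)) I.restrict
    refine Measure.ext_of_charFunDual ?_
    funext L
    obtain ⟨a, ha⟩ := dual_lin I L
    have ml := lin_meas a
    rw [charFunDual_apply, charFunDual_apply, integral_map mr.aemeasurable
      (by fun_prop), integral_map mr.aemeasurable (by fun_prop)]
    simp only [ha]
    rw [integral_withDensity_eq_integral_toReal_smul₀ mp (ae_of_all _ fun ω =>
        ENNReal.ofReal_lt_top),
      integral_withDensity_eq_integral_toReal_smul₀ mm (ae_of_all _ fun ω =>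
        ENNReal.ofReal_lt_top)]
    have me : Measurable fun ω => Complex.exp ((lin a ω : ℂ) * Complex.I) := by fun_prop
    have i1 : Integrable (fun ω => (ENNReal.ofReal (g ω)).toReal •
        Complex.exp ((lin a ω : ℂ) * Complex.I)) Q := by
      refine hg.abs.mono' (mp.ennreal_toReal.aestronglyMeasurable.smul
        me.aestronglyMeasurable) (ae_of_all _ fun ω => ?_)
      rw [norm_smul, Complex.norm_exp_ofReal_mul_I, mul_one, Real.norm_eq_abs,
        abs_of_nonneg ENNReal.toReal_nonneg, ENNReal.toReal_ofReal']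
      exact max_le (le_abs_self _) (abs_nonneg _)
    have i2 : Integrable (fun ω => (ENNReal.ofReal (-g ω)).toReal •
        Complex.exp ((lin a ω : ℂ) * Complex.I)) Q := by
      refine hg.abs.mono' (mm.ennreal_toReal.aestronglyMeasurable.smul
        me.aestronglyMeasurable) (ae_of_all _ fun ω => ?_)
      rw [norm_smul, Complex.norm_exp_ofReal_mul_I, mul_one, Real.norm_eq_abs,
        abs_of_nonneg ENNReal.toReal_nonneg, ENNReal.toReal_ofReal']
      exact max_le (neg_le_abs _) (abs_nonneg _)
    rw [← sub_eq_zero, ← integral_sub i2 i1]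
    have e : ∀ ω, (ENNReal.ofReal (-g ω)).toReal • Complex.exp ((lin a ω : ℂ) * Complex.I) -
        (ENNReal.ofReal (g ω)).toReal • Complex.exp ((lin a ω : ℂ) * Complex.I) =
        -((g ω : ℂ) * Complex.exp ((lin a ω : ℂ) * Complex.I)) := by
      intro ω
      rw [← sub_smul, ENNReal.toReal_ofReal', ENNReal.toReal_ofReal', Complex.real_smul]
      have : max (-g ω) 0 - max (g ω) 0 = -g ω := by
        rcases le_total 0 (g ω) with h | h
        · rw [max_eq_right (by linarith), max_eq_left h]; ring
        · rw [max_eq_left (by linarith), max_eq_right h]; ring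
      rw [this]
      push_cast
      ring
    simp only [e]
    rw [integral_neg, h a, neg_zero]
  have hlim1 : IsProjectiveLimit (Q.withDensity fun ω => ENNReal.ofReal (g ω))
      (fun I => (Q.withDensity fun ω => ENNReal.ofReal (g ω)).map I.restrict) := fun I => rfl
  have hlim2 : IsProjectiveLimit (Q.withDensity fun ω => ENNReal.ofReal (-g ω))
      (fun I => (Q.withDensity fun ω => ENNReal.ofReal (g ω)).map I.restrict) := hI
  have : ∀ I : Finset T, IsFiniteMeasure ((Q.withDensity fun ω => ENNReal.ofReal (g ω)).map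
      (I.restrict : (T → ℝ) → (I → ℝ))) := fun I => Measure.isFiniteMeasure_map _ _
  have heq := hlim1.unique hlim2
  rw [withDensity_eq_iff_of_sigmaFinite mp mm] at heq
  filter_upwards [heq] with ω hω
  have h1 : ENNReal.ofReal (g ω) = ENNReal.ofReal (-g ω) := hω
  rcases le_total 0 (g ω) with h0 | h0
  · rw [ENNReal.ofReal_of_nonpos (by linarith : -g ω ≤ 0), ENNReal.ofReal_eq_zero] at h1
    exact le_antisymm h1 h0
  · rw [ENNReal.ofReal_of_nonpos h0, eq_comm, ENNReal.ofReal_eq_zero] at h1
    show g ω = 0
    linarith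

end

end Pool.Agent.KS6_61.RW
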