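import Mathlib

/-!
# Exponentials of centred Gaussian variables
-/

set_option autoImplicit false
set_option linter.unusedSectionVars false
open MeasureTheory Filter Topology ProbabilityTheory
open scoped ENNReal NNReal ComplexConjugate

namespace Pool.Agent.KS6_61.RW

noncomputable section

variable {T : Type*} {Q : Measure (T → ℝ)}

/-- finite linear combination of the coordinates -/
def lin (a : T →₀ ℝ) (ω : T → ℝ) : ℝ := a.sum fun p c => c * ω p

lemma lin_meas (a : T →₀ ℝ) : Measurable (lin a) := by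
  unfold lin Finsupp.sum
  exact Finset.measurable_sum _ fun p _ => measurable_const.mul (measurable_pi_apply p)

lemma lin_add (a b : T →₀ ℝ) (ω : T → ℝ) : lin (a + b) ω = lin a ω + lin b ω := by
  classical
  unfold lin
  exact Finsupp.sum_add_index' (fun p => zero_mul _) fun p c c' => add_mul _ _ _

lemma lin_smul (c : ℝ) (a : T →₀ ℝ) (ω : T → ℝ) : lin (c • a) ω = c * lin a ω := by
  unfold lin
  rw [Finsupp.sum_smul_index fun p => zero_mul _, Finsupp.mul_sum]
  simp only [mul_assoc]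

lemma lin_neg (a : T →₀ ℝ) (ω : T → ℝ) : lin (-a) ω = -lin a ω := by
  have := lin_smul (-1) a ω
  rw [neg_one_smul] at this
  rw [this]; ring

lemma lin_zero (ω : T → ℝ) : lin (0 : T →₀ ℝ) ω = 0 := by simp [lin]

lemma lin_single (p : T) (c : ℝ) (ω : T → ℝ) : lin (Finsupp.single p c) ω = c * ω p := by
  unfold lin
  rw [Finsupp.sum_single_index (zero_mul _)]

/-- centred jointly Gaussian coordinates -/
def Gss (Q : Measure (T → ℝ)) : Prop :=
  ∀ a : T →₀ ℝ, ∃ v : ℝ≥0, Q.map (lin a) = gaussianReal 0 v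

/-- the covariance form -/
def BB (Q : Measure (T → ℝ)) (a b : T →₀ ℝ) : ℝ := ∫ ω, lin a ω * lin b ω ∂Q

lemma Gss.mem (h : Gss Q) (a : T →₀ ℝ) : MemLp (lin a) 2 Q := by
  obtain ⟨v, hv⟩ := h a
  have h1 := memLp_id_gaussianReal (μ := 0) (v := v) 2
  rw [← hv] at h1
  have h2 := (memLp_map_measure_iff h1.1 (lin_meas a).aemeasurable).1 h1
  exact h2

lemma Gss.int [IsProbabilityMeasure Q] (h : Gss Q) (a : T →₀ ℝ) : Integrable (lin a) Q :=
  (h.mem a).integrable (by norm_num)

lemma Gss.int2 (h : Gss Q) (a b : T →₀ ℝ) :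
    Integrable (fun ω => lin a ω * lin b ω) Q := (h.mem a).integrable_mul (h.mem b)

lemma Gss.mean (h : Gss Q) (a : T →₀ ℝ) : ∫ ω, lin a ω ∂Q = 0 := by
  obtain ⟨v, hv⟩ := h a
  have h1 : ∫ x, x ∂(Q.map (lin a)) = ∫ ω, lin a ω ∂Q :=
    integral_map (lin_meas a).aemeasurable (by fun_prop)
  rw [← h1, hv, integral_id_gaussianReal]

lemma Gss.var (_h : Gss Q) (a : T →₀ ℝ) {v : ℝ≥0} (hv : Q.map (lin a) = gaussianReal 0 v) :
    (v : ℝ) = BB Q a a := by
  have h1 : ∫ x, x ^ 2 ∂(Q.map (lin a)) = ∫ ω, lin a ω ^ 2 ∂Q :=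
    integral_map (lin_meas a).aemeasurable (by fun_prop)
  have h2 : ∫ x, x ^ 2 ∂(gaussianReal 0 v) = v := by
    have := variance_of_integral_eq_zero (μ := gaussianReal 0 v) (X := fun x : ℝ => x)
      aemeasurable_id (by rw [integral_id_gaussianReal])
    rw [variance_fun_id_gaussianReal] at this
    exact this.symm
  rw [hv, h2] at h1
  rw [h1, BB]
  congr 1; funext ω; ring

lemma Gss.cf (h : Gss Q) (a : T →₀ ℝ) :
    ∫ ω, Complex.exp ((lin a ω : ℂ) * Complex.I) ∂Q = Complex.exp (-(BB Q a a : ℂ) / 2) := by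
  obtain ⟨v, hv⟩ := h a
  have h1 := charFun_gaussianReal (μ := 0) (v := v) 1
  rw [← hv, charFun_apply_real, integral_map (lin_meas a).aemeasurable (by fun_prop)] at h1
  have h2 := h.var a hv
  rw [← h2]
  have e : ∀ ω, Complex.exp ((lin a ω : ℂ) * Complex.I) =
      Complex.exp (((1 : ℝ) : ℂ) * (lin a ω : ℂ) * Complex.I) := by
    intro ω; simp
  simp only [e]
  rw [h1]
  congr 1
  push_cast
  ring

lemma BB_symm (a b : T →₀ ℝ) : BB Q a b = BB Q b a := by
  unfold BB; congr 1; funext ω; ring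

lemma Gss.add (h : Gss Q) (a b c : T →₀ ℝ) : BB Q a (b + c) = BB Q a b + BB Q a c := by
  unfold BB
  rw [← integral_add (h.int2 a b) (h.int2 a c)]
  congr 1; funext ω; rw [lin_add]; ring

lemma BB_smul (c : ℝ) (a b : T →₀ ℝ) : BB Q a (c • b) = c * BB Q a b := by
  unfold BB
  rw [← integral_const_mul]
  congr 1; funext ω; rw [lin_smul]; ring

lemma BB_neg (a b : T →₀ ℝ) : BB Q a (-b) = -BB Q a b := by
  have := BB_smul (Q := Q) (-1) a b
  rw [neg_one_smul] at this
  rw [this]; ring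

lemma Gss.quad (h : Gss Q) (a b : T →₀ ℝ) :
    BB Q (a + b) (a + b) = BB Q a a + 2 * BB Q a b + BB Q b b := by
  rw [h.add, BB_symm (a + b) a, BB_symm (a + b) b, h.add, h.add, BB_symm b a]; ring

/-- `E Y e^{iX} = i E(XY) e^{-Var X / 2}` -/
lemma Gss.cross [IsProbabilityMeasure Q] (h : Gss Q) (a b : T →₀ ℝ) :
    ∫ ω, (lin b ω : ℂ) * Complex.exp ((lin a ω : ℂ) * Complex.I) ∂Q =
      Complex.I * BB Q a b * Complex.exp (-(BB Q a a : ℂ) / 2) := by
  have e1 : ∀ s : ℝ, ∫ ω, Complex.exp (((lin a ω + s * lin b ω : ℝ) : ℂ) * Complex.I) ∂Q =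
      Complex.exp (-((BB Q a a + 2 * s * BB Q a b + s ^ 2 * BB Q b b : ℝ) : ℂ) / 2) := by
    intro s
    have h1 := h.cf (a + s • b)
    rw [h.quad, BB_smul, BB_symm (s • b) (s • b), BB_smul, BB_symm (s • b) b, BB_smul] at h1
    simp only [lin_add, lin_smul] at h1
    rw [h1]
    congr 1
    push_cast
    ring
  have d1 : HasDerivAt (fun s : ℝ => Complex.exp (-((BB Q a a + 2 * s * BB Q a b +
      s ^ 2 * BB Q b b : ℝ) : ℂ) / 2))
      (-(BB Q a b : ℂ) * Complex.exp (-(BB Q a a : ℂ) / 2)) 0 := by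
    have h1 : HasDerivAt (fun s : ℝ => BB Q a a + 2 * s * BB Q a b + s ^ 2 * BB Q b b)
        (2 * BB Q a b) 0 := by
      have := (((hasDerivAt_id' (0 : ℝ)).const_mul 2).mul_const (BB Q a b)).const_add (BB Q a a)
      have h3 := this.fun_add ((hasDerivAt_pow 2 (0 : ℝ)).mul_const (BB Q b b))
      refine h3.congr_deriv ?_
      norm_num
    have h2 := (h1.ofReal_comp.fun_neg.div_const 2).cexp
    refine h2.congr_deriv ?_
    simp only [mul_zero, zero_mul, add_zero, ne_eq, OfNat.ofNat_ne_zero, not_false_eq_true,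
      zero_pow]
    push_cast
    ring
  have d2 : HasDerivAt (fun s : ℝ => ∫ ω, Complex.exp (((lin a ω + s * lin b ω : ℝ) : ℂ) *
      Complex.I) ∂Q) (∫ ω, (lin b ω : ℂ) * Complex.I *
        Complex.exp (((lin a ω + 0 * lin b ω : ℝ) : ℂ) * Complex.I) ∂Q) 0 := by
    have mm : ∀ s : ℝ, Measurable fun ω => Complex.exp (((lin a ω + s * lin b ω : ℝ) : ℂ) *
        Complex.I) := by
      intro s
      have := lin_meas a; have := lin_meas b
      fun_prop
    have hb : ∀ (s : ℝ) ω, ‖Complex.exp (((lin a ω + s * lin b ω : ℝ) : ℂ) * Complex.I)‖ = 1 :=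
      fun s ω => Complex.norm_exp_ofReal_mul_I _
    refine (hasDerivAt_integral_of_dominated_loc_of_deriv_le (F := fun (s : ℝ) ω =>
      Complex.exp (((lin a ω + s * lin b ω : ℝ) : ℂ) * Complex.I))
      (F' := fun (s : ℝ) ω => (lin b ω : ℂ) * Complex.I *
        Complex.exp (((lin a ω + s * lin b ω : ℝ) : ℂ) * Complex.I))
      (bound := fun ω => |lin b ω|) Filter.univ_mem ?_ ?_ ?_ ?_ ?_ ?_).2
    · exact Eventually.of_forall fun s => (mm s).aestronglyMeasurable
    · exact (integrable_const (1 : ℝ)).mono' (mm 0).aestronglyMeasurable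
        (ae_of_all _ fun ω => (hb 0 ω).le)
    · have := lin_meas b
      exact ((by fun_prop : Measurable fun ω => (lin b ω : ℂ) * Complex.I).mul
        (mm 0)).aestronglyMeasurable
    · refine ae_of_all _ fun ω s _ => ?_
      rw [norm_mul, hb, mul_one, norm_mul, Complex.norm_I, mul_one, Complex.norm_real,
        Real.norm_eq_abs]
    · exact (h.int b).abs
    · refine ae_of_all _ fun ω s _ => ?_
      have h1 : HasDerivAt (fun s : ℝ => lin a ω + s * lin b ω) (lin b ω) s := by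
        have := ((hasDerivAt_id s).mul_const (lin b ω)).const_add (lin a ω)
        simpa using this
      have h2 := (h1.ofReal_comp.mul_const Complex.I).cexp
      refine h2.congr_deriv ?_
      ring
  have d3 := d2.congr_of_eventuallyEq (Eventually.of_forall fun s => (e1 s).symm)
  have h4 := d3.unique d1
  simp only [zero_mul, add_zero] at h4
  have e5 : ∫ ω, (lin b ω : ℂ) * Complex.I * Complex.exp ((lin a ω : ℂ) * Complex.I) ∂Q =
      Complex.I * ∫ ω, (lin b ω : ℂ) * Complex.exp ((lin a ω : ℂ) * Complex.I) ∂Q := by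
    rw [← integral_const_mul]
    congr 1; funext ω; ring
  rw [e5] at h4
  have h6 : ∫ ω, (lin b ω : ℂ) * Complex.exp ((lin a ω : ℂ) * Complex.I) ∂Q =
      -Complex.I * (Complex.I * ∫ ω, (lin b ω : ℂ) * Complex.exp ((lin a ω : ℂ) *
        Complex.I) ∂Q) := by
    rw [← mul_assoc, neg_mul, Complex.I_mul_I, neg_neg, one_mul]
  rw [h6, h4]
  ring

end

end Pool.Agent.KS6_61.RW
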