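import Pool.Agent.KS6_61.RW.Gau

/-!
# Exponentials of centred Gaussian variables as vectors of `L²`
-/

set_option autoImplicit false
set_option linter.unusedSectionVars false
open MeasureTheory Filter Topology ProbabilityTheory
open scoped ENNReal NNReal ComplexConjugate

namespace Pool.Agent.KS6_61.RW

noncomputable section

variable {T : Type*} {Q : Measure (T → ℝ)} [IsProbabilityMeasure Q]

lemma inner_toLp {f g : (T → ℝ) → ℂ} (hf : MemLp f 2 Q) (hg : MemLp g 2 Q) :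
    inner ℂ (hf.toLp f) (hg.toLp g) = ∫ ω, conj (f ω) * g ω ∂Q := by
  rw [L2.inner_def]
  refine integral_congr_ae ?_
  filter_upwards [hf.coeFn_toLp, hg.coeFn_toLp] with ω h1 h2
  rw [h1, h2, RCLike.inner_apply]
  exact mul_comm _ _

lemma mem_exp (Q : Measure (T → ℝ)) [IsProbabilityMeasure Q] (a : T →₀ ℝ) :
    MemLp (fun ω => Complex.exp ((lin a ω : ℂ) * Complex.I)) 2 Q := by
  have := lin_meas a
  exact MemLp.of_bound (by fun_prop) 1
    (ae_of_all _ fun ω => (Complex.norm_exp_ofReal_mul_I _).le)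

lemma mem_lin (h : Gss Q) (a : T →₀ ℝ) : MemLp (fun ω => (lin a ω : ℂ)) 2 Q := (h.mem a).ofReal

lemma mem_one (Q : Measure (T → ℝ)) [IsProbabilityMeasure Q] :
    MemLp (fun _ : T → ℝ => (1 : ℂ)) 2 Q := memLp_const 1

/-- `e^{iX}` -/
def EE (Q : Measure (T → ℝ)) [IsProbabilityMeasure Q] (a : T →₀ ℝ) : Lp ℂ 2 Q :=
  (mem_exp Q a).toLp _

/-- the constant `1` -/
def OO (Q : Measure (T → ℝ)) [IsProbabilityMeasure Q] : Lp ℂ 2 Q := (mem_one Q).toLp _

/-- `X` -/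
def LL (h : Gss Q) (a : T →₀ ℝ) : Lp ℂ 2 Q := (mem_lin h a).toLp _

lemma conj_exp (a : T →₀ ℝ) (ω : T → ℝ) : conj (Complex.exp ((lin a ω : ℂ) * Complex.I)) =
    Complex.exp ((lin (-a) ω : ℂ) * Complex.I) := by
  rw [← Complex.exp_conj, map_mul, Complex.conj_I, Complex.conj_ofReal, lin_neg]
  congr 1
  push_cast
  ring

lemma inner_OO : inner ℂ (OO Q) (OO Q) = 1 := by
  rw [OO, inner_toLp]
  simp

lemma inner_OE (h : Gss Q) (a : T →₀ ℝ) :
    inner ℂ (OO Q) (EE Q a) = Complex.exp (-(BB Q a a : ℂ) / 2) := by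
  rw [OO, EE, inner_toLp]
  simp only [map_one, one_mul]
  exact h.cf a

lemma inner_EO (h : Gss Q) (a : T →₀ ℝ) :
    inner ℂ (EE Q a) (OO Q) = Complex.exp (-(BB Q a a : ℂ) / 2) := by
  rw [OO, EE, inner_toLp]
  simp only [conj_exp, mul_one]
  rw [h.cf, BB_neg, BB_symm, BB_neg, neg_neg]

lemma inner_OL (h : Gss Q) (a : T →₀ ℝ) : inner ℂ (OO Q) (LL h a) = 0 := by
  rw [OO, LL, inner_toLp]
  simp only [map_one, one_mul]
  rw [integral_complex_ofReal, h.mean, Complex.ofReal_zero]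

lemma inner_LO (h : Gss Q) (a : T →₀ ℝ) : inner ℂ (LL h a) (OO Q) = 0 := by
  rw [← inner_conj_symm, inner_OL, map_zero]

lemma inner_LL (h : Gss Q) (a b : T →₀ ℝ) : inner ℂ (LL h a) (LL h b) = BB Q a b := by
  rw [LL, LL, inner_toLp, BB]
  simp only [Complex.conj_ofReal, ← Complex.ofReal_mul]
  rw [integral_complex_ofReal]

lemma inner_LE (h : Gss Q) (a b : T →₀ ℝ) : inner ℂ (LL h a) (EE Q b) =
    Complex.I * BB Q a b * Complex.exp (-(BB Q b b : ℂ) / 2) := by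
  rw [LL, EE, inner_toLp]
  simp only [Complex.conj_ofReal]
  rw [h.cross, BB_symm]

lemma inner_EL (h : Gss Q) (a b : T →₀ ℝ) : inner ℂ (EE Q a) (LL h b) =
    -(Complex.I * BB Q a b * Complex.exp (-(BB Q a a : ℂ) / 2)) := by
  rw [← inner_conj_symm, inner_LE, map_mul, map_mul, Complex.conj_I, Complex.conj_ofReal,
    ← Complex.exp_conj, BB_symm]
  simp only [map_div₀, map_neg, Complex.conj_ofReal, map_ofNat]
  ring

lemma inner_EE (h : Gss Q) (a b : T →₀ ℝ) : inner ℂ (EE Q a) (EE Q b) =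
    Complex.exp (-((BB Q a a - 2 * BB Q a b + BB Q b b : ℝ) : ℂ) / 2) := by
  rw [EE, EE, inner_toLp]
  simp only [conj_exp]
  have e : ∀ ω, Complex.exp ((lin (-a) ω : ℂ) * Complex.I) * Complex.exp ((lin b ω : ℂ) *
      Complex.I) = Complex.exp ((lin (-a + b) ω : ℂ) * Complex.I) := by
    intro ω
    rw [← Complex.exp_add, lin_add]
    congr 1
    push_cast
    ring
  simp only [e]
  rw [h.cf, h.quad, BB_neg, BB_symm (-a) a, BB_neg, neg_neg, BB_symm (-a) b, BB_neg,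
    BB_symm b a]
  congr 1
  push_cast
  ring

/-- `e^{iX} - e^{-v/2} (1 + i X)` -/
def UU (h : Gss Q) (v : ℝ) (a : T →₀ ℝ) : Lp ℂ 2 Q :=
  EE Q a - ((Real.exp (-v / 2) : ℝ) : ℂ) • OO Q -
    (((Real.exp (-v / 2) : ℝ) : ℂ) * Complex.I) • LL h a

lemma UU_inner (h : Gss Q) {v : ℝ} {a b : T →₀ ℝ} (ha : BB Q a a = v) (hb : BB Q b b = v) :
    inner ℂ (UU h v a) (UU h v b) = (Real.exp (-v) : ℂ) *
      (Complex.exp (BB Q a b) - 1 - BB Q a b) := by
  have k1 : Complex.exp (-(v : ℂ) / 2) = ((Real.exp (-v / 2) : ℝ) : ℂ) := by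
    push_cast; rfl
  have k2 : Complex.exp (-((v - 2 * BB Q a b + v : ℝ) : ℂ) / 2) =
      ((Real.exp (-v / 2) : ℝ) : ℂ) ^ 2 * Complex.exp (BB Q a b) := by
    push_cast
    rw [← Complex.exp_nat_mul, ← Complex.exp_add]
    congr 1
    push_cast
    ring
  have k3 : (Real.exp (-v) : ℂ) = ((Real.exp (-v / 2) : ℝ) : ℂ) ^ 2 := by
    push_cast
    rw [← Complex.exp_nat_mul]
    congr 1
    push_cast
    ring
  unfold UU
  simp only [inner_sub_left, inner_sub_right, inner_smul_left, inner_smul_right, inner_EE h,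
    inner_OO, inner_OE h, inner_EO h, inner_OL h, inner_LO h, inner_LL h, inner_LE h, inner_EL h,
    ha, hb, k1, k2, k3, map_mul, Complex.conj_ofReal, Complex.conj_I]
  obtain ⟨κ, hκ⟩ : ∃ κ : ℂ, κ = ((Real.exp (-v / 2) : ℝ) : ℂ) := ⟨_, rfl⟩
  rw [← hκ]
  linear_combination (κ ^ 2 * (BB Q a b : ℂ)) * Complex.I_sq

end

end Pool.Agent.KS6_61.RW
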