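import Mathlib

/-!
# Sums of independent vectors and the unit sphere

The unit distance graph of a Euclidean space of dimension at most three contains no complete
bipartite graph `K_{3,3}`; hence the sum of two independent vectors without atoms does not lie on
the unit sphere.
-/

set_option autoImplicit false
set_option linter.unusedSectionVars false
open MeasureTheory Filter Topology
open scoped ENNReal NNReal

namespace Pool.Agent.KS6_61.RW

section
variable {V : Type*} [NormedAddCommGroup V] [InnerProductSpace ℝ V]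

lemma ortho4 {a a' b b' : V} (h1 : ‖a + b‖ = 1) (h2 : ‖a + b'‖ = 1) (h3 : ‖a' + b‖ = 1)
    (h4 : ‖a' + b'‖ = 1) : inner ℝ (a' - a) (b' - b) = 0 := by
  have e1 := norm_add_sq_real a b
  have e2 := norm_add_sq_real a b'
  have e3 := norm_add_sq_real a' b
  have e4 := norm_add_sq_real a' b'
  rw [h1] at e1; rw [h2] at e2; rw [h3] at e3; rw [h4] at e4
  rw [inner_sub_left, inner_sub_right, inner_sub_right]
  linarith

lemma indep3 {a b1 b2 b3 : V} (h1 : ‖a + b1‖ = 1) (h2 : ‖a + b2‖ = 1) (h3 : ‖a + b3‖ = 1)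
    (d12 : b1 ≠ b2) (d13 : b1 ≠ b3) (d23 : b2 ≠ b3) :
    LinearIndependent ℝ ![b2 - b1, b3 - b1] := by
  have f2 : 2 * inner ℝ (a + b1) (b2 - b1) + ‖b2 - b1‖ ^ 2 = 0 := by
    have e := norm_add_sq_real (a + b1) (b2 - b1)
    rw [show a + b1 + (b2 - b1) = a + b2 by abel, h1, h2] at e
    linarith
  have f3 : 2 * inner ℝ (a + b1) (b3 - b1) + ‖b3 - b1‖ ^ 2 = 0 := by
    have e := norm_add_sq_real (a + b1) (b3 - b1)
    rw [show a + b1 + (b3 - b1) = a + b3 by abel, h1, h3] at e
    linarith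
  rw [LinearIndependent.pair_iff]
  intro s t hst
  have w0 : b2 - b1 ≠ 0 := sub_ne_zero.2 d12.symm
  have n0 : 0 < ‖b2 - b1‖ ^ 2 := by positivity
  by_cases ht : t = 0
  · rw [ht, zero_smul, add_zero, smul_eq_zero] at hst
    exact ⟨hst.resolve_right w0, ht⟩
  · exfalso
    obtain ⟨r, hr⟩ : ∃ r : ℝ, b3 - b1 = r • (b2 - b1) := by
      refine ⟨-(s / t), ?_⟩
      have : t • (b3 - b1) = -(s • (b2 - b1)) := by
        rw [eq_neg_iff_add_eq_zero, add_comm]; exact hst
      have h := congrArg (fun v => t⁻¹ • v) this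
      simp only [smul_neg, smul_smul, inv_mul_cancel₀ ht, one_smul] at h
      rw [h, neg_smul]
      congr 2
      field_simp
    rw [hr, inner_smul_right, norm_smul, mul_pow, Real.norm_eq_abs, sq_abs] at f3
    have f4 : r * ((r - 1) * ‖b2 - b1‖ ^ 2) = 0 := by
      linear_combination f3 - r * f2
    rcases mul_eq_zero.1 f4 with h | h
    · rw [h, zero_smul, sub_eq_zero] at hr
      exact d13 hr.symm
    · rcases mul_eq_zero.1 h with h | h
      · have : r = 1 := by linarith
        rw [this, one_smul] at hr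
        exact d23 (sub_left_injective hr).symm
      · exact n0.ne' h

/-- no `K_{3,3}` in the unit distance graph in dimension at most three -/
lemma noK33 [FiniteDimensional ℝ V] (hd : Module.finrank ℝ V ≤ 3) {a1 a2 a3 b1 b2 b3 : V}
    (h11 : ‖a1 + b1‖ = 1) (h12 : ‖a1 + b2‖ = 1) (h13 : ‖a1 + b3‖ = 1)
    (h21 : ‖a2 + b1‖ = 1) (h22 : ‖a2 + b2‖ = 1) (h23 : ‖a2 + b3‖ = 1)
    (h31 : ‖a3 + b1‖ = 1) (h32 : ‖a3 + b2‖ = 1) (h33 : ‖a3 + b3‖ = 1)
    (p12 : a1 ≠ a2) (p13 : a1 ≠ a3) (p23 : a2 ≠ a3)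
    (d12 : b1 ≠ b2) (d13 : b1 ≠ b3) (d23 : b2 ≠ b3) : False := by
  have iB := indep3 h11 h12 h13 d12 d13 d23
  have iA : LinearIndependent ℝ ![a2 - a1, a3 - a1] := by
    refine indep3 (a := b1) ?_ ?_ ?_ p12 p13 p23
    · rw [add_comm]; exact h11
    · rw [add_comm]; exact h21
    · rw [add_comm]; exact h31
  have fB := finrank_span_eq_card iB
  have fA := finrank_span_eq_card iA
  rw [Fintype.card_fin] at fA fB
  have hle : Submodule.span ℝ (Set.range ![a2 - a1, a3 - a1]) ≤
      (Submodule.span ℝ (Set.range ![b2 - b1, b3 - b1]))ᗮ := by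
    rw [Submodule.le_orthogonal_iff_le_orthogonal, Submodule.span_le]
    rintro _ ⟨i, rfl⟩
    rw [SetLike.mem_coe, Submodule.mem_orthogonal]
    intro x hx
    refine Submodule.span_induction (p := fun x _ => inner ℝ x (![b2 - b1, b3 - b1] i) = 0)
      ?_ ?_ ?_ ?_ hx
    · rintro _ ⟨j, rfl⟩
      fin_cases i <;> fin_cases j
      · exact ortho4 h11 h12 h21 h22
      · exact ortho4 h11 h12 h31 h32
      · exact ortho4 h11 h13 h21 h23
      · exact ortho4 h11 h13 h31 h33
    · exact inner_zero_left _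
    · intro x y _ _ hx hy
      rw [inner_add_left, hx, hy, add_zero]
    · intro c x _ hx
      rw [inner_smul_left, hx, mul_zero]
  have h1 := Submodule.finrank_mono hle
  have h2 := Submodule.finrank_add_finrank_orthogonal
    (Submodule.span ℝ (Set.range ![b2 - b1, b3 - b1]))
  omega

lemma common_finite [FiniteDimensional ℝ V] (hd : Module.finrank ℝ V ≤ 3) {b1 b2 b3 : V}
    (d12 : b1 ≠ b2) (d13 : b1 ≠ b3) (d23 : b2 ≠ b3) :
    {a : V | ‖a + b1‖ = 1 ∧ ‖a + b2‖ = 1 ∧ ‖a + b3‖ = 1}.Finite := by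
  classical
  by_contra hinf
  obtain ⟨t, ht, hc⟩ := (Set.not_finite.1 hinf : Set.Infinite _).exists_subset_card_eq 3
  obtain ⟨a1, a2, a3, h12, h13, h23, rfl⟩ := Finset.card_eq_three.1 hc
  have m1 : a1 ∈ {a : V | ‖a + b1‖ = 1 ∧ ‖a + b2‖ = 1 ∧ ‖a + b3‖ = 1} := ht (by simp)
  have m2 : a2 ∈ {a : V | ‖a + b1‖ = 1 ∧ ‖a + b2‖ = 1 ∧ ‖a + b3‖ = 1} := ht (by simp)
  have m3 : a3 ∈ {a : V | ‖a + b1‖ = 1 ∧ ‖a + b2‖ = 1 ∧ ‖a + b3‖ = 1} := ht (by simp)
  exact noK33 hd m1.1 m1.2.1 m1.2.2 m2.1 m2.2.1 m2.2.2 m3.1 m3.2.1 m3.2.2 h12 h13 h23 d12 d13 d23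

end

section
variable {V : Type*} [NormedAddCommGroup V] [InnerProductSpace ℝ V] [FiniteDimensional ℝ V]
  [MeasurableSpace V] [BorelSpace V]

/-- `ν` charges no affine hyperplane -/
def NoHyp (ν : Measure V) : Prop := ∀ (e : V) (c : ℝ), e ≠ 0 → ν {x | inner ℝ x e = c} = 0

lemma slice_null3 (hd : Module.finrank ℝ V ≤ 3) (μ ν : Measure V) [IsFiniteMeasure μ]
    [IsFiniteMeasure ν] [NullSingletonClass μ] [NullSingletonClass ν] : ∀ᵐ a ∂μ, ν {b | ‖a + b‖ = 1} = 0 := by
  obtain ⟨T, hT⟩ : ∃ T : Set (V × (V × (V × V))), T = {q | ‖q.1 + q.2.1‖ = 1 ∧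
    ‖q.1 + q.2.2.1‖ = 1 ∧ ‖q.1 + q.2.2.2‖ = 1} := ⟨_, rfl⟩
  have mT : MeasurableSet T := by
    rw [hT]
    refine IsClosed.measurableSet ?_
    refine (isClosed_eq (by fun_prop) continuous_const).inter
      ((isClosed_eq (by fun_prop) continuous_const).inter (isClosed_eq (by fun_prop)
        continuous_const))
  have h1 : (μ.prod (ν.prod (ν.prod ν))) T = 0 := by
    rw [Measure.prod_apply_symm mT]
    refine lintegral_eq_zero_of_ae_eq_zero ?_
    have n12 : ∀ᵐ y ∂(ν.prod (ν.prod ν)), y.1 ≠ y.2.1 := by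
      rw [ae_iff]
      simp only [not_not]
      have m : MeasurableSet {y : V × (V × V) | y.1 = y.2.1} :=
        (isClosed_eq (by fun_prop) (by fun_prop)).measurableSet
      rw [Measure.measure_prod_null m]
      refine ae_of_all _ fun b => ?_
      simp only [Pi.zero_apply]
      have e : Prod.mk b ⁻¹' {y : V × (V × V) | y.1 = y.2.1} = {b} ×ˢ Set.univ := by
        ext z; simp [eq_comm]
      rw [e, Measure.prod_prod, measure_singleton, zero_mul]
    have n13 : ∀ᵐ y ∂(ν.prod (ν.prod ν)), y.1 ≠ y.2.2 := by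
      rw [ae_iff]
      simp only [not_not]
      have m : MeasurableSet {y : V × (V × V) | y.1 = y.2.2} :=
        (isClosed_eq (by fun_prop) (by fun_prop)).measurableSet
      rw [Measure.measure_prod_null m]
      refine ae_of_all _ fun b => ?_
      simp only [Pi.zero_apply]
      have e : Prod.mk b ⁻¹' {y : V × (V × V) | y.1 = y.2.2} = Set.univ ×ˢ {b} := by
        ext z; simp [eq_comm]
      rw [e, Measure.prod_prod, measure_singleton, mul_zero]
    have n23 : ∀ᵐ y ∂(ν.prod (ν.prod ν)), y.2.1 ≠ y.2.2 := by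
      rw [ae_iff]
      simp only [not_not]
      have m : MeasurableSet {y : V × (V × V) | y.2.1 = y.2.2} :=
        (isClosed_eq (by fun_prop) (by fun_prop)).measurableSet
      rw [Measure.measure_prod_null m]
      refine ae_of_all _ fun b => ?_
      simp only [Pi.zero_apply]
      have m2 : MeasurableSet {z : V × V | z.1 = z.2} :=
        (isClosed_eq (by fun_prop) (by fun_prop)).measurableSet
      have e : Prod.mk b ⁻¹' {y : V × (V × V) | y.2.1 = y.2.2} = {z : V × V | z.1 = z.2} := rfl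
      rw [e, Measure.measure_prod_null m2]
      refine ae_of_all _ fun b => ?_
      simp only [Pi.zero_apply]
      have e : Prod.mk b ⁻¹' {z : V × V | z.1 = z.2} = {b} := by
        ext z; simp [eq_comm]
      rw [e, measure_singleton]
    filter_upwards [n12, n13, n23] with y y12 y13 y23
    have e : (fun x => (x, y)) ⁻¹' T = {a : V | ‖a + y.1‖ = 1 ∧ ‖a + y.2.1‖ = 1 ∧
      ‖a + y.2.2‖ = 1} := by rw [hT]; rfl
    rw [e]
    exact (common_finite hd y12 y13 y23).measure_zero μ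
  rw [Measure.measure_prod_null mT] at h1
  filter_upwards [h1] with a ha
  have e : Prod.mk a ⁻¹' T = {b | ‖a + b‖ = 1} ×ˢ ({b | ‖a + b‖ = 1} ×ˢ {b | ‖a + b‖ = 1}) := by
    rw [hT]; rfl
  rw [e, Measure.prod_prod, Measure.prod_prod] at ha
  have h0 : ν {b | ‖a + b‖ = 1} * (ν {b | ‖a + b‖ = 1} * ν {b | ‖a + b‖ = 1}) = 0 := ha
  simpa using h0

lemma slice_null2 (μ ν : Measure V) [IsFiniteMeasure μ] [IsFiniteMeasure ν] (hμ : NoHyp μ)
    [NullSingletonClass ν] : ∀ᵐ a ∂μ, ν {b | ‖a + b‖ = 1} = 0 := by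
  obtain ⟨T, hT⟩ : ∃ T : Set (V × (V × V)), T = {q | ‖q.1 + q.2.1‖ = 1 ∧
    ‖q.1 + q.2.2‖ = 1} := ⟨_, rfl⟩
  have mT : MeasurableSet T := by
    rw [hT]
    refine IsClosed.measurableSet ?_
    exact (isClosed_eq (by fun_prop) continuous_const).inter
      (isClosed_eq (by fun_prop) continuous_const)
  have h1 : (μ.prod (ν.prod ν)) T = 0 := by
    rw [Measure.prod_apply_symm mT]
    refine lintegral_eq_zero_of_ae_eq_zero ?_
    have n12 : ∀ᵐ y ∂(ν.prod ν), y.1 ≠ y.2 := by
      rw [ae_iff]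
      simp only [not_not]
      have m : MeasurableSet {y : V × V | y.1 = y.2} :=
        (isClosed_eq (by fun_prop) (by fun_prop)).measurableSet
      rw [Measure.measure_prod_null m]
      refine ae_of_all _ fun b => ?_
      simp only [Pi.zero_apply]
      have e : Prod.mk b ⁻¹' {y : V × V | y.1 = y.2} = {b} := by
        ext z; simp [eq_comm]
      rw [e, measure_singleton]
    filter_upwards [n12] with y y12
    have e : (fun x => (x, y)) ⁻¹' T ⊆ {a : V | inner ℝ a (y.1 - y.2) =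
        (‖y.2‖ ^ 2 - ‖y.1‖ ^ 2) / 2} := by
      intro a ha
      rw [hT] at ha
      have e1 := norm_add_sq_real a y.1
      have e2 := norm_add_sq_real a y.2
      have h1 : ‖a + y.1‖ = 1 := ha.1
      have h2 : ‖a + y.2‖ = 1 := ha.2
      rw [h1] at e1; rw [h2] at e2
      show inner ℝ a (y.1 - y.2) = _
      rw [inner_sub_right]
      linarith
    exact measure_mono_null e (hμ _ _ (sub_ne_zero.2 y12))
  rw [Measure.measure_prod_null mT] at h1
  filter_upwards [h1] with a ha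
  have e : Prod.mk a ⁻¹' T = {b | ‖a + b‖ = 1} ×ˢ {b | ‖a + b‖ = 1} := by
    rw [hT]; rfl
  rw [e, Measure.prod_prod] at ha
  have h0 : ν {b | ‖a + b‖ = 1} * ν {b | ‖a + b‖ = 1} = 0 := ha
  simpa using h0

lemma NoHyp.nullS {μ : Measure V} (hμ : NoHyp μ) (hn : Nontrivial V) : NullSingletonClass μ := by
  obtain ⟨e, he⟩ := exists_ne (0 : V)
  refine ⟨fun x => ?_⟩
  refine measure_mono_null ?_ (hμ e (inner ℝ x e) he)
  intro y hy
  rw [Set.mem_singleton_iff] at hy
  rw [hy]; rfl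

/-- the condition on the spectral measures: no atoms in dimension at most three, no charged affine
hyperplanes in any dimension -/
def Diffuse (μ : Measure V) : Prop :=
  (Module.finrank ℝ V ≤ 3 ∧ NullSingletonClass μ) ∨ NoHyp μ

lemma conv_sphere (μ ν : Measure V) [IsFiniteMeasure μ] [IsFiniteMeasure ν]
    (h : (Module.finrank ℝ V ≤ 3 ∧ NullSingletonClass μ) ∨ NoHyp μ) [NullSingletonClass ν] :
    (μ ∗ ν) {ξ | ‖ξ‖ = 1} = 0 := by
  have hs : ∀ᵐ a ∂μ, ν {b | ‖a + b‖ = 1} = 0 := by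
    rcases h with ⟨hd, hn⟩ | h
    · exact slice_null3 hd μ ν
    · exact slice_null2 μ ν h
  have mS : MeasurableSet {ξ : V | ‖ξ‖ = 1} :=
    (isClosed_eq (by fun_prop) continuous_const).measurableSet
  rw [Measure.conv, Measure.map_apply (by fun_prop) mS, Measure.measure_prod_null
    ((show Measurable fun p : V × V => p.1 + p.2 by fun_prop) mS)]
  exact hs

lemma conv_noAtoms (μ ν : Measure V) [IsFiniteMeasure μ] [IsFiniteMeasure ν] [NullSingletonClass ν] :
    NullSingletonClass (μ ∗ ν) := by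
  refine ⟨fun c => ?_⟩
  rw [Measure.conv, Measure.map_apply (by fun_prop) (measurableSet_singleton _),
    Measure.measure_prod_null ((show Measurable fun p : V × V => p.1 + p.2 by fun_prop)
      (measurableSet_singleton _))]
  refine ae_of_all _ fun a => ?_
  simp only [Pi.zero_apply]
  have e : Prod.mk a ⁻¹' ((fun p : V × V => p.1 + p.2) ⁻¹' {c}) = {c - a} := by
    ext z
    simp only [Set.mem_preimage, Set.mem_singleton_iff]
    rw [eq_sub_iff_add_eq, add_comm]
  rw [e, measure_singleton]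

end

end Pool.Agent.KS6_61.RW
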