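import Pool.Agent.KS6_61.RW.Sys

/-!
# Waves in Gaussian systems are linear observables
-/

set_option autoImplicit false
set_option linter.unusedSectionVars false
open MeasureTheory Filter Topology ProbabilityTheory
open scoped ENNReal NNReal ComplexConjugate

namespace Pool.Agent.KS6_61.RW

noncomputable section

section
variable {T : Type*} {Q : Measure (T → ℝ)} [IsProbabilityMeasure Q]

lemma innerR {f g : (T → ℝ) → ℝ} (hf : MemLp f 2 Q) (hg : MemLp g 2 Q) :
    inner ℝ (hf.toLp f) (hg.toLp g) = ∫ ω, f ω * g ω ∂Q := by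
  rw [L2.inner_def]
  refine integral_congr_ae ?_
  filter_upwards [hf.coeFn_toLp, hg.coeFn_toLp] with ω h1 h2
  rw [h1, h2]
  simp [mul_comm]

/-- the linear observables -/
def RL (h : Gss Q) : (T →₀ ℝ) →ₗ[ℝ] Lp ℝ 2 Q where
  toFun a := (h.mem a).toLp
  map_add' a b := by
    rw [← MemLp.toLp_add]
    congr 1
    funext ω
    exact lin_add a b ω
  map_smul' c a := by
    rw [RingHom.id_apply, ← MemLp.toLp_const_smul]
    congr 1
    funext ω
    exact lin_smul c a ω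

lemma RL_apply (h : Gss Q) (a : T →₀ ℝ) : RL h a = (h.mem a).toLp := rfl

/-- the closed span of the linear observables -/
def KK (h : Gss Q) : Submodule ℝ (Lp ℝ 2 Q) := (LinearMap.range (RL h)).topologicalClosure

lemma mem_cos (a : T →₀ ℝ) : MemLp (fun ω => Real.cos (lin a ω)) 2 Q := by
  have := lin_meas a
  refine MemLp.of_bound (by fun_prop) 1 (ae_of_all _ fun ω => ?_)
  rw [Real.norm_eq_abs]; exact Real.abs_cos_le_one _

lemma mem_sin (a : T →₀ ℝ) : MemLp (fun ω => Real.sin (lin a ω)) 2 Q := by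
  have := lin_meas a
  refine MemLp.of_bound (by fun_prop) 1 (ae_of_all _ fun ω => ?_)
  rw [Real.norm_eq_abs]; exact Real.abs_sin_le_one _

lemma mem_sin' (h : Gss Q) (a : T →₀ ℝ) :
    MemLp (fun ω => Real.sin (lin a ω) - Real.exp (-(BB Q a a) / 2) * lin a ω) 2 Q :=
  (mem_sin a).sub ((h.mem a).const_mul _)

/-- the formula for `E Y e^{iX}` in real form -/
lemma real_form {Y : (T → ℝ) → ℝ} (h : Gss Q)
    (h2 : MemLp Y 2 Q) (a : T →₀ ℝ)
    (e : ∫ ω, (Y ω : ℂ) * Complex.exp ((lin a ω : ℂ) * Complex.I) ∂Q =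
      Complex.I * ((∫ ω, Y ω * lin a ω ∂Q : ℝ) : ℂ) * Complex.exp (-(BB Q a a : ℂ) / 2)) :
    ∫ ω, Y ω * Real.cos (lin a ω) ∂Q = 0 ∧
    ∫ ω, Y ω * (Real.sin (lin a ω) - Real.exp (-(BB Q a a) / 2) * lin a ω) ∂Q = 0 := by
  have mc := lin_meas a
  have ic : Integrable (fun ω => Y ω * Real.cos (lin a ω)) Q := h2.integrable_mul (mem_cos a)
  have is : Integrable (fun ω => Y ω * Real.sin (lin a ω)) Q := h2.integrable_mul (mem_sin a)
  have il : Integrable (fun ω => Y ω * lin a ω) Q := h2.integrable_mul (h.mem a)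
  have e1 : ∫ ω, (Y ω : ℂ) * Complex.exp ((lin a ω : ℂ) * Complex.I) ∂Q =
      ((∫ ω, Y ω * Real.cos (lin a ω) ∂Q : ℝ) : ℂ) +
      ((∫ ω, Y ω * Real.sin (lin a ω) ∂Q : ℝ) : ℂ) * Complex.I := by
    rw [← integral_complex_ofReal, ← integral_complex_ofReal, ← integral_mul_const,
      ← integral_add ic.ofReal (is.ofReal.mul_const _)]
    congr 1; funext ω
    rw [Complex.exp_mul_I]
    push_cast
    ring
  have e2 : Complex.exp (-(BB Q a a : ℂ) / 2) = ((Real.exp (-(BB Q a a) / 2) : ℝ) : ℂ) := by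
    push_cast; rfl
  rw [e1, e2] at e
  have r := congrArg Complex.re e
  have i := congrArg Complex.im e
  simp only [Complex.add_re, Complex.ofReal_re, Complex.mul_re, Complex.I_re, Complex.I_im,
    Complex.ofReal_im, Complex.add_im, Complex.mul_im, mul_zero, mul_one, zero_mul, sub_zero,
    add_zero, zero_add, one_mul, sub_self] at r i
  refine ⟨r, ?_⟩
  have e3 : ∀ ω, Y ω * (Real.sin (lin a ω) - Real.exp (-(BB Q a a) / 2) * lin a ω) =
      Y ω * Real.sin (lin a ω) - Real.exp (-(BB Q a a) / 2) * (Y ω * lin a ω) := by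
    intro ω; ring
  simp only [e3]
  rw [integral_sub is (il.const_mul _), integral_const_mul, i]
  ring

/-- the vectors orthogonal to all linear observables and to the wave -/
def NN (h : Gss Q) : Submodule ℝ (Lp ℝ 2 Q) :=
  Submodule.span ℝ (Set.range (fun a : T →₀ ℝ => (mem_cos (Q := Q) a).toLp) ∪
    Set.range (fun a : T →₀ ℝ => (mem_sin' h a).toLp))

lemma mem_NN {h : Gss Q} {Y : Lp ℝ 2 Q}
    (h1 : ∀ a : T →₀ ℝ, inner ℝ Y ((mem_cos (Q := Q) a).toLp) = 0)
    (h2 : ∀ a : T →₀ ℝ, inner ℝ Y ((mem_sin' h a).toLp) = 0) : Y ∈ (NN h)ᗮ := by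
  rw [Submodule.mem_orthogonal']
  intro u hu
  refine Submodule.span_induction (p := fun x _ => inner ℝ Y x = 0) ?_ ?_ ?_ ?_ hu
  · rintro _ (⟨a, rfl⟩ | ⟨a, rfl⟩)
    · exact h1 a
    · exact h2 a
  · exact inner_zero_right _
  · intro x y _ _ hx hy
    rw [inner_add_right, hx, hy, add_zero]
  · intro c x _ hx
    rw [inner_smul_right, hx, mul_zero]

lemma KK_le (h : Gss Q) : KK h ≤ (NN h)ᗮ := by
  refine Submodule.topologicalClosure_minimal _ ?_ (Submodule.isClosed_orthogonal _)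
  rintro _ ⟨b, rfl⟩
  have r : ∀ a, _ := fun a => real_form h (h.mem b) a (by
    rw [h.cross, BB_symm]; rfl)
  refine mem_NN (fun a => ?_) (fun a => ?_)
  · rw [RL_apply, innerR]
    exact (r a).1
  · rw [RL_apply, innerR]
    exact (r a).2

/-- **A vector with the exponential formula is a linear observable.** -/
theorem mem_KK (h : Gss Q) {Y : (T → ℝ) → ℝ} (h2 : MemLp Y 2 Q)
    (e : ∀ a : T →₀ ℝ, ∫ ω, (Y ω : ℂ) * Complex.exp ((lin a ω : ℂ) * Complex.I) ∂Q =
      Complex.I * ((∫ ω, Y ω * lin a ω ∂Q : ℝ) : ℂ) * Complex.exp (-(BB Q a a : ℂ) / 2)) :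
    h2.toLp Y ∈ KK h := by
  have hY : h2.toLp Y ∈ (NN h)ᗮ := by
    have r : ∀ a, _ := fun a => real_form h h2 a (e a)
    refine mem_NN (fun a => ?_) (fun a => ?_)
    · rw [innerR]
      exact (r a).1
    · rw [innerR]
      exact (r a).2
  have hcl : IsClosed (KK h : Set (Lp ℝ 2 Q)) := Submodule.isClosed_topologicalClosure _
  have : CompleteSpace (KK h) := hcl.completeSpace_coe
  obtain ⟨Z, hZ⟩ : ∃ Z, Z = (KK h).starProjection (h2.toLp Y) := ⟨_, rfl⟩
  have hZK : Z ∈ KK h := by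
    rw [hZ]; exact Submodule.starProjection_apply_mem _ _
  have ho : h2.toLp Y - Z ∈ (KK h)ᗮ := by
    rw [hZ]; exact Submodule.sub_starProjection_mem_orthogonal _
  have hn : h2.toLp Y - Z ∈ (NN h)ᗮ := Submodule.sub_mem _ hY (KK_le h hZK)
  obtain ⟨g, hg⟩ : ∃ g, g = h2.toLp Y - Z := ⟨_, rfl⟩
  rw [← hg] at ho hn
  have mg : MemLp g 2 Q := Lp.memLp g
  have eg : mg.toLp g = g := Lp.toLp_coeFn _ _
  have ig : Integrable g Q := mg.integrable (by norm_num)
  have hzero : (g : (T → ℝ) → ℝ) =ᵐ[Q] 0 := by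
    refine complete ig fun a => ?_
    rw [Submodule.mem_orthogonal'] at hn ho
    have c1 := hn ((mem_cos (Q := Q) a).toLp) (Submodule.subset_span (Or.inl ⟨a, rfl⟩))
    have c2 := hn ((mem_sin' h a).toLp) (Submodule.subset_span (Or.inr ⟨a, rfl⟩))
    have c3 := ho (RL h a) (Submodule.le_topologicalClosure _ ⟨a, rfl⟩)
    rw [← eg, innerR] at c1 c2
    rw [← eg, RL_apply, innerR] at c3
    have ic : Integrable (fun ω => g ω * Real.cos (lin a ω)) Q := mg.integrable_mul (mem_cos a)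
    have is : Integrable (fun ω => g ω * Real.sin (lin a ω)) Q := mg.integrable_mul (mem_sin a)
    have il : Integrable (fun ω => g ω * lin a ω) Q := mg.integrable_mul (h.mem a)
    have c4 : ∫ ω, g ω * Real.sin (lin a ω) ∂Q = 0 := by
      have e3 : ∀ ω, g ω * (Real.sin (lin a ω) - Real.exp (-(BB Q a a) / 2) * lin a ω) =
          g ω * Real.sin (lin a ω) - Real.exp (-(BB Q a a) / 2) * (g ω * lin a ω) := by
        intro ω; ring
      simp only [e3] at c2
      rw [integral_sub is (il.const_mul _), integral_const_mul, c3, mul_zero, sub_zero] at c2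
      exact c2
    have e1 : ∫ ω, (g ω : ℂ) * Complex.exp ((lin a ω : ℂ) * Complex.I) ∂Q =
        ((∫ ω, g ω * Real.cos (lin a ω) ∂Q : ℝ) : ℂ) +
        ((∫ ω, g ω * Real.sin (lin a ω) ∂Q : ℝ) : ℂ) * Complex.I := by
      rw [← integral_complex_ofReal, ← integral_complex_ofReal, ← integral_mul_const,
        ← integral_add ic.ofReal (is.ofReal.mul_const _)]
      congr 1; funext ω
      rw [Complex.exp_mul_I]
      push_cast
      ring
    rw [e1, c1, c4]
    simp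
  have g0 : g = 0 := by
    rw [← eg]
    exact (Lp.ext (mg.coeFn_toLp.trans (hzero.trans (Lp.coeFn_zero ℝ 2 Q).symm)))
  have : h2.toLp Y = Z := by
    rw [g0] at hg
    exact (sub_eq_zero.1 hg.symm)
  rw [this]
  exact hZK

/-- linear observables are Gaussian -/
theorem gauss_KK (h : Gss Q) {Y : (T → ℝ) → ℝ} (mY : Measurable Y) (h2 : MemLp Y 2 Q)
    (hK : h2.toLp Y ∈ KK h) :
    (∀ ε : ℝ, 0 < ε → ∃ a : T →₀ ℝ, ∫ ω, (Y ω - lin a ω) ^ 2 ∂Q ≤ ε) ∧
    ∃ v : ℝ≥0, Q.map Y = gaussianReal 0 v := by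
  have hcl : h2.toLp Y ∈ closure (LinearMap.range (RL h) : Set (Lp ℝ 2 Q)) := hK
  obtain ⟨x, hx, hlim⟩ := mem_closure_iff_seq_limit.1 hcl
  choose a ha using hx
  have hlim' : Tendsto (fun n => RL h (a n)) atTop (𝓝 (h2.toLp Y)) := by
    refine hlim.congr fun n => (ha n).symm
  constructor
  · intro ε hε
    have h3 := (tendsto_iff_norm_sub_tendsto_zero.1 hlim').pow 2
    rw [zero_pow (by norm_num)] at h3
    obtain ⟨n, hn⟩ := (h3.eventually (gt_mem_nhds hε)).exists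
    refine ⟨a n, ?_⟩
    have e : ‖RL h (a n) - h2.toLp Y‖ ^ 2 = ∫ ω, (Y ω - lin (a n) ω) ^ 2 ∂Q := by
      rw [← real_inner_self_eq_norm_sq, RL_apply, ← MemLp.toLp_sub, innerR]
      congr 1; funext ω
      simp only [Pi.sub_apply]
      ring
    rw [← e]
    exact hn.le
  · obtain ⟨v, hv⟩ : ∃ v : ℝ≥0, (v : ℝ) = ‖h2.toLp Y‖ ^ 2 := ⟨⟨_, sq_nonneg _⟩, rfl⟩
    refine ⟨v, ?_⟩
    have : IsProbabilityMeasure (Q.map Y) := Measure.isProbabilityMeasure_map mY.aemeasurable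
    refine Measure.ext_of_charFun (funext fun s => ?_)
    rw [charFun_gaussianReal, charFun_apply_real, integral_map mY.aemeasurable (by fun_prop)]
    have hm := tendstoInMeasure_of_tendsto_Lp hlim'
    obtain ⟨ns, hns, hae⟩ := hm.exists_seq_tendsto_ae
    have hn2 : Tendsto (fun k => ‖RL h (a (ns k))‖ ^ 2) atTop (𝓝 (‖h2.toLp Y‖ ^ 2)) :=
      ((hlim'.norm.comp hns.tendsto_atTop)).pow 2
    have e1 : ∀ n, ∫ ω, Complex.exp ((s : ℂ) * (lin (a n) ω : ℂ) * Complex.I) ∂Q =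
        Complex.exp ((-(s ^ 2 * ‖RL h (a n)‖ ^ 2) / 2 : ℝ) : ℂ) := by
      intro n
      have h3 := h.cf (s • a n)
      rw [BB_smul, BB_symm, BB_smul] at h3
      simp only [lin_smul] at h3
      have h4 : ‖RL h (a n)‖ ^ 2 = BB Q (a n) (a n) := by
        rw [← real_inner_self_eq_norm_sq, RL_apply, innerR]
        rfl
      rw [h4]
      have h5 : ∀ ω, Complex.exp ((s : ℂ) * (lin (a n) ω : ℂ) * Complex.I) =
          Complex.exp (((s * lin (a n) ω : ℝ) : ℂ) * Complex.I) := by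
        intro ω; push_cast; rfl
      simp only [h5]
      rw [h3]
      congr 1
      push_cast
      ring
    have t1 : Tendsto (fun k => ∫ ω, Complex.exp ((s : ℂ) * (lin (a (ns k)) ω : ℂ) *
        Complex.I) ∂Q) atTop (𝓝 (∫ ω, Complex.exp ((s : ℂ) * (Y ω : ℂ) * Complex.I) ∂Q)) := by
      refine tendsto_integral_of_dominated_convergence (fun _ => (1 : ℝ)) (fun k => ?_)
        (integrable_const _) (fun k => ae_of_all _ fun ω => ?_) ?_
      · have := lin_meas (a (ns k))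
        exact (by fun_prop : Measurable _).aestronglyMeasurable
      · have : Complex.exp ((s : ℂ) * (lin (a (ns k)) ω : ℂ) * Complex.I) =
          Complex.exp (((s * lin (a (ns k)) ω : ℝ) : ℂ) * Complex.I) := by push_cast; rfl
        rw [this, Complex.norm_exp_ofReal_mul_I]
      · have hall : ∀ᵐ ω ∂Q, ∀ n, RL h (a n) ω = lin (a n) ω :=
          ae_all_iff.2 fun n => (h.mem (a n)).coeFn_toLp
        filter_upwards [hae, hall, h2.coeFn_toLp] with ω w1 w2 w3
        rw [w3] at w1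
        have w4 : Tendsto (fun k => lin (a (ns k)) ω) atTop (𝓝 (Y ω)) := by
          refine w1.congr fun k => w2 _
        have c : Continuous fun t : ℝ => Complex.exp ((s : ℂ) * (t : ℂ) * Complex.I) := by
          fun_prop
        exact (c.tendsto _).comp w4
    simp only [e1] at t1
    have t2 : Tendsto (fun k => Complex.exp ((-(s ^ 2 * ‖RL h (a (ns k))‖ ^ 2) / 2 : ℝ) : ℂ))
        atTop (𝓝 (Complex.exp ((-(s ^ 2 * ‖h2.toLp Y‖ ^ 2) / 2 : ℝ) : ℂ))) := by
      have c : Continuous fun t : ℝ => Complex.exp ((-(s ^ 2 * t) / 2 : ℝ) : ℂ) := by fun_prop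
      exact (c.tendsto _).comp hn2
    rw [tendsto_nhds_unique t1 t2]
    congr 1
    push_cast
    have : ((v : ℝ) : ℂ) = (‖h2.toLp Y‖ : ℂ) ^ 2 := by
      rw [hv]; push_cast; rfl
    rw [this]
    ring

end

section
variable {V : Type*} [NormedAddCommGroup V] [InnerProductSpace ℝ V] [FiniteDimensional ℝ V]
  [MeasurableSpace V] [BorelSpace V] {ι : Type*}
variable {Q : Measure (ι × V → ℝ)} [IsProbabilityMeasure Q] {σ : ι → Measure V}

/-- **Waves in diffuse Gaussian systems are linear observables, hence Gaussian.** -/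
theorem Sys.gauss (S : Sys Q σ) [∀ i, IsFiniteMeasure (σ i)] [Nontrivial V]
    (hd : (Module.finrank ℝ V ≤ 3 ∧ ∀ i, NullSingletonClass (σ i)) ∨ ∀ i, NoHyp (σ i))
    {Φ : (ι × V → ℝ) → ℝ} (mΦ : Measurable Φ) (l2 : ∀ y, MemLp (fun ω => Φ (shp y ω)) 2 Q)
    {ρ : Measure V} [IsFiniteMeasure ρ] (hρ : ∀ᵐ ξ ∂ρ, ‖ξ‖ = 1)
    (hs : ∀ y z, ((∫ ω, Φ (shp y ω) * Φ (shp z ω) ∂Q : ℝ) : ℂ) = charFun ρ (z - y)) :
    (∀ ε : ℝ, 0 < ε → ∃ a : ι × V →₀ ℝ, ∫ ω, (Φ ω - lin a ω) ^ 2 ∂Q ≤ ε) ∧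
    ∃ v : ℝ≥0, Q.map Φ = gaussianReal 0 v := by
  obtain ⟨h0, h1⟩ := S.orth hd mΦ l2 hρ hs
  have l0 : MemLp Φ 2 Q := by
    have := l2 0
    simpa only [shp_zero] using this
  refine gauss_KK S.g mΦ l0 (mem_KK S.g l0 fun a => ?_)
  have h2 := h1 a
  have i0 : Integrable Φ Q := l0.integrable (by norm_num)
  have i1 : Integrable (fun ω => (Φ ω : ℂ) * Complex.exp ((lin a ω : ℂ) * Complex.I)) Q := by
    have := lin_meas a
    refine i0.norm.mono' (by fun_prop) (ae_of_all _ fun ω => ?_)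
    rw [norm_mul, Complex.norm_exp_ofReal_mul_I, mul_one, Complex.norm_real]
  have i2 : Integrable (fun ω => (Φ ω : ℂ) * ((Real.exp (-(BB Q a a) / 2) : ℝ) : ℂ)) Q :=
    i0.ofReal.mul_const _
  have i3 : Integrable (fun ω => ((Φ ω * lin a ω : ℝ) : ℂ) *
      (((Real.exp (-(BB Q a a) / 2) : ℝ) : ℂ) * Complex.I)) Q :=
    (l0.integrable_mul (S.g.mem a)).ofReal.mul_const _
  have e1 : ∀ ω, (Φ ω : ℂ) * WW (BB Q a a) a ω =
      (Φ ω : ℂ) * Complex.exp ((lin a ω : ℂ) * Complex.I) -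
      (Φ ω : ℂ) * ((Real.exp (-(BB Q a a) / 2) : ℝ) : ℂ) -
      ((Φ ω * lin a ω : ℝ) : ℂ) * (((Real.exp (-(BB Q a a) / 2) : ℝ) : ℂ) * Complex.I) := by
    intro ω
    unfold WW
    push_cast
    ring
  have i12 : Integrable (fun ω => (Φ ω : ℂ) * Complex.exp ((lin a ω : ℂ) * Complex.I) -
      (Φ ω : ℂ) * ((Real.exp (-(BB Q a a) / 2) : ℝ) : ℂ)) Q := i1.sub i2
  simp only [e1] at h2
  rw [integral_sub i12 i3, integral_sub i1 i2, integral_mul_const, integral_mul_const,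
    integral_complex_ofReal, h0, integral_complex_ofReal] at h2
  have e2 : Complex.exp (-(BB Q a a : ℂ) / 2) = ((Real.exp (-(BB Q a a) / 2) : ℝ) : ℂ) := by
    push_cast; rfl
  rw [e2]
  simp only [Complex.ofReal_zero, zero_mul, sub_zero] at h2
  rw [sub_eq_zero] at h2
  rw [h2]
  ring

end

end

end Pool.Agent.KS6_61.RW
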