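import Pool.Agent.KS6_61.RW.Bo
import Pool.Agent.KS6_61.RW.Conv
import Pool.Agent.KS6_61.RW.Dif
import Pool.Agent.KS6_61.RW.GauL
import Pool.Agent.KS6_61.RW.Exp

/-!
# Stationary Gaussian systems on path space
-/

set_option autoImplicit false
set_option linter.unusedSectionVars false
open MeasureTheory Filter Topology ProbabilityTheory
open scoped ENNReal NNReal ComplexConjugate

namespace Pool.Agent.KS6_61.RW

noncomputable section

variable {V : Type*} [NormedAddCommGroup V] [InnerProductSpace ℝ V] [FiniteDimensional ℝ V]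
  [MeasurableSpace V] [BorelSpace V] {ι : Type*}

/-- shift of paths -/
def shp (x : V) (ω : ι × V → ℝ) : ι × V → ℝ := fun p => ω (p.1, p.2 + x)

lemma shp_meas (x : V) : Measurable (shp x : (ι × V → ℝ) → (ι × V → ℝ)) :=
  measurable_pi_iff.2 fun _ => measurable_pi_apply _

lemma shp_shp (x y : V) (ω : ι × V → ℝ) : shp x (shp y ω) = shp (x + y) ω := by
  funext p
  unfold shp
  simp only [add_assoc]

lemma shp_zero (ω : ι × V → ℝ) : shp 0 ω = ω := by
  funext p
  unfold shp
  simp only [add_zero]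

/-- shift of coefficients -/
def shc (x : V) (a : ι × V →₀ ℝ) : ι × V →₀ ℝ := a.mapDomain fun p => (p.1, p.2 + x)

lemma lin_shc (x : V) (a : ι × V →₀ ℝ) (ω : ι × V → ℝ) : lin (shc x a) ω = lin a (shp x ω) := by
  unfold lin shc
  rw [Finsupp.sum_mapDomain_index (fun p => zero_mul _) fun p c c' => add_mul _ _ _]
  rfl

/-- a stationary Gaussian system with spectral measures `σ i` -/
structure Sys (Q : Measure (ι × V → ℝ)) (σ : ι → Measure V) : Prop where
  g : Gss Q
  st : ∀ x, MeasurePreserving (shp x) Q Q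
  sp : ∀ i x, charFun (σ i) x = ((∫ ω, ω (i, 0) * ω (i, x) ∂Q : ℝ) : ℂ)

variable {Q : Measure (ι × V → ℝ)} [IsProbabilityMeasure Q] {σ : ι → Measure V}

lemma Sys.BB_shc (S : Sys Q σ) (x : V) (a b : ι × V →₀ ℝ) :
    BB Q (shc x a) (shc x b) = BB Q a b := by
  unfold BB
  simp only [lin_shc]
  have m : Measurable fun ω => lin a ω * lin b ω := (lin_meas a).mul (lin_meas b)
  have h := integral_map (μ := Q) (shp_meas x).aemeasurable m.aestronglyMeasurable
  rw [(S.st x).map_eq] at h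
  exact h.symm

lemma shc_shc (x y : V) (a : ι × V →₀ ℝ) : shc x (shc y a) = shc (y + x) a := by
  unfold shc
  rw [← Finsupp.mapDomain_comp]
  congr 1
  funext p
  simp only [Function.comp, add_assoc]

lemma Sys.BB_two (S : Sys Q σ) (y z : V) (a : ι × V →₀ ℝ) :
    BB Q (shc y a) (shc z a) = BB Q a (shc (z - y) a) := by
  rw [← S.BB_shc y a, shc_shc]
  congr 2
  abel

lemma shc_zero (a : ι × V →₀ ℝ) : shc 0 a = a := by
  unfold shc
  have e : (fun p : ι × V => (p.1, p.2 + 0)) = id := by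
    funext p; simp
  rw [e, Finsupp.mapDomain_id]

lemma LL_add (h : Gss Q) (a b : ι × V →₀ ℝ) : LL h (a + b) = LL h a + LL h b := by
  unfold LL
  rw [← MemLp.toLp_add]
  congr 1
  funext ω
  rw [lin_add]
  simp

lemma LL_smul (h : Gss Q) (c : ℝ) (a : ι × V →₀ ℝ) : LL h (c • a) = (c : ℂ) • LL h a := by
  unfold LL
  rw [← MemLp.toLp_const_smul]
  congr 1
  funext ω
  rw [lin_smul]
  simp

lemma LL_sum (h : Gss Q) {K : Type*} (s : Finset K) (a : K → ι × V →₀ ℝ) :
    LL h (∑ k ∈ s, a k) = ∑ k ∈ s, LL h (a k) :=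
  map_sum (AddMonoidHom.mk' (fun a : ι × V →₀ ℝ => LL h a) fun a b => LL_add h a b) a s

/-- the coordinate field with index `i` -/
def cu (h : Gss Q) (i : ι) (y : V) : Lp ℂ 2 Q := LL h (Finsupp.single (i, y) 1)

lemma Sys.cu_spec (S : Sys Q σ) (i : ι) : SpecH (cu S.g i) (σ i) := by
  intro y z
  rw [cu, cu, inner_LL, S.sp]
  congr 1
  unfold BB
  simp only [lin_single, one_mul]
  have m : Measurable fun ω : ι × V → ℝ => ω (i, 0) * ω (i, z - y) :=
    (measurable_pi_apply _).mul (measurable_pi_apply _)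
  have h := integral_map (μ := Q) (shp_meas y).aemeasurable m.aestronglyMeasurable
  rw [(S.st y).map_eq] at h
  rw [h]
  congr 1; funext ω
  simp only [shp, zero_add, sub_add_cancel]

lemma LL_shc (h : Gss Q) (a : ι × V →₀ ℝ) (y : V) :
    LL h (shc y a) = ∑ p ∈ a.support, (a p : ℂ) • cu h p.1 (y + p.2) := by
  have e : shc y a = ∑ p ∈ a.support, (a p) • Finsupp.single (p.1, p.2 + y) (1 : ℝ) := by
    unfold shc Finsupp.mapDomain Finsupp.sum
    refine Finset.sum_congr rfl fun p _ => ?_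
    simp
  rw [e, LL_sum]
  refine Finset.sum_congr rfl fun p _ => ?_
  rw [LL_smul, cu, add_comm y]

/-- the spectral measures of the linear observables -/
lemma Sys.exists_tau (S : Sys Q σ) [∀ i, IsFiniteMeasure (σ i)] [Nontrivial V]
    (hd : (Module.finrank ℝ V ≤ 3 ∧ ∀ i, NullSingletonClass (σ i)) ∨ ∀ i, NoHyp (σ i))
    (a : ι × V →₀ ℝ) : ∃ τ : Measure V, IsFiniteMeasure τ ∧ SpecH (fun y => LL S.g (shc y a)) τ ∧
      NullSingletonClass τ ∧ (Module.finrank ℝ V ≤ 3 ∨ NoHyp τ) := by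
  have hc : Continuous fun y => LL S.g (shc y a) := by
    simp only [LL_shc]
    refine continuous_finsetSum _ fun p _ => ?_
    exact Continuous.const_smul ((S.cu_spec p.1).cont.comp
      (continuous_id.add continuous_const)) (a p : ℂ)
  obtain ⟨τ, hτ, hs⟩ := exists_specH hc (C := fun x => BB Q a (shc x a)) (by
    intro y z
    rw [inner_LL, S.BB_two])
  have hn : NullSingletonClass τ := by
    refine null_comb a.support (fun p => (a p : ℂ)) (fun p => p.2) (fun p => cu S.g p.1)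
      (fun p => σ p.1) (fun p => S.cu_spec p.1) hs (fun y => LL_shc _ _ _) ?_
    intro p _
    rcases hd with hd | hd
    · exact hd.2 p.1
    · exact (hd p.1).nullS inferInstance
  refine ⟨τ, hτ, hs, hn, ?_⟩
  rcases hd with hd | hd
  · exact Or.inl hd.1
  · right
    exact hyp_comb a.support (fun p => (a p : ℂ)) (fun p => p.2) (fun p => cu S.g p.1)
      (fun p => σ p.1) (fun p => S.cu_spec p.1) hs (fun y => LL_shc _ _ _) fun p _ => hd p.1

/-- the nonlinear part of the exponential, as a function -/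
def WW (v : ℝ) (a : ι × V →₀ ℝ) (ω : ι × V → ℝ) : ℂ :=
  Complex.exp ((lin a ω : ℂ) * Complex.I) - ((Real.exp (-v / 2) : ℝ) : ℂ) -
    ((Real.exp (-v / 2) : ℝ) : ℂ) * Complex.I * (lin a ω : ℂ)

lemma mem_WW (h : Gss Q) (v : ℝ) (a : ι × V →₀ ℝ) : MemLp (WW v a) 2 Q := by
  unfold WW
  exact ((mem_exp Q a).sub (memLp_const _)).sub ((mem_lin h a).const_mul _)

lemma UU_eq (h : Gss Q) (v : ℝ) (a : ι × V →₀ ℝ) : UU h v a = (mem_WW h v a).toLp := by
  unfold UU EE OO LL
  rw [← MemLp.toLp_const_smul, ← MemLp.toLp_const_smul, ← MemLp.toLp_sub, ← MemLp.toLp_sub]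
  congr 1
  funext ω
  simp [WW]

/-- **Orthogonality to the nonlinear parts.** -/
theorem Sys.orth (S : Sys Q σ) [∀ i, IsFiniteMeasure (σ i)] [Nontrivial V]
    (hd : (Module.finrank ℝ V ≤ 3 ∧ ∀ i, NullSingletonClass (σ i)) ∨ ∀ i, NoHyp (σ i))
    {Φ : (ι × V → ℝ) → ℝ} (mΦ : Measurable Φ) (l2 : ∀ y, MemLp (fun ω => Φ (shp y ω)) 2 Q)
    {ρ : Measure V} [IsFiniteMeasure ρ] (hρ : ∀ᵐ ξ ∂ρ, ‖ξ‖ = 1)
    (hs : ∀ y z, ((∫ ω, Φ (shp y ω) * Φ (shp z ω) ∂Q : ℝ) : ℂ) = charFun ρ (z - y)) :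
    (∫ ω, Φ ω ∂Q = 0) ∧ ∀ a : ι × V →₀ ℝ, ∫ ω, (Φ ω : ℂ) * WW (BB Q a a) a ω ∂Q = 0 := by
  have mC : ∀ y, MemLp (fun ω => (Φ (shp y ω) : ℂ)) 2 Q := fun y => (l2 y).ofReal
  obtain ⟨f, hf⟩ : ∃ f : V → Lp ℂ 2 Q, ∀ y, f y =
    (mC y).toLp (fun ω => (Φ (shp y ω) : ℂ)) := ⟨_, fun _ => rfl⟩
  have fs : SpecH f ρ := by
    intro y z
    rw [hf, hf, inner_toLp, ← hs]
    simp only [Complex.conj_ofReal, ← Complex.ofReal_mul]
    exact integral_complex_ofReal
  have f0 : ∀ g : (ι × V → ℝ) → ℂ, ∀ hg : MemLp g 2 Q, inner ℂ (f 0) (hg.toLp g) =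
      ∫ ω, (Φ ω : ℂ) * g ω ∂Q := by
    intro g hg
    rw [hf, inner_toLp]
    simp only [Complex.conj_ofReal, shp_zero]
  constructor
  · have h1 : SpecH (fun _ : V => OO Q) (Measure.dirac (0 : V)) := by
      intro y z
      rw [inner_OO, charFun_dirac]
      simp
    have h2 := key fs h1 hρ (by
      rw [Measure.dirac_apply' _ (isClosed_eq (by fun_prop) continuous_const).measurableSet]
      simp) (by
      intro y
      rw [OO, hf, hf, inner_toLp, inner_toLp]
      simp only [Complex.conj_ofReal, mul_one, shp_zero]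
      have h := integral_map (μ := Q) (shp_meas y).aemeasurable
        (f := fun ω => (Φ ω : ℂ)) (by fun_prop)
      rw [(S.st y).map_eq] at h
      exact h.symm)
    rw [OO, f0] at h2
    simp only [mul_one] at h2
    have h3 : ((∫ ω, Φ ω ∂Q : ℝ) : ℂ) = 0 := by
      rw [← h2]
      exact integral_complex_ofReal.symm
    exact_mod_cast h3
  · intro a
    obtain ⟨τ, hτ, hs, hn, hd'⟩ := S.exists_tau hd a
    have hv : τ.real Set.univ = BB Q a a := by
      have h1 := hs 0 0
      rw [inner_LL, sub_self, charFun_zero, S.BB_shc] at h1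
      exact_mod_cast h1.symm
    have us : SpecH (fun y => UU S.g (BB Q a a) (shc y a)) (ex τ) := by
      intro y z
      have e := hs y z
      rw [inner_LL] at e
      rw [UU_inner S.g (S.BB_shc y a a) (S.BB_shc z a a), e, ex_char, hv]
    have h2 := key fs us hρ (ex_sphere τ hd') (by
      intro y
      rw [UU_eq, UU_eq, hf, hf, inner_toLp, inner_toLp]
      simp only [Complex.conj_ofReal, shp_zero]
      have mW : Measurable (WW (BB Q a a) a) := by
        unfold WW
        have := lin_meas a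
        fun_prop
      have h := integral_map (μ := Q) (shp_meas (-y)).aemeasurable
        (f := fun ω => (Φ (shp y ω) : ℂ) * WW (BB Q a a) a ω) (by
          have := (shp_meas (ι := ι) y)
          fun_prop)
      rw [(S.st (-y)).map_eq] at h
      rw [shc_zero, h]
      congr 1; funext ω
      rw [shp_shp, add_neg_cancel, shp_zero]
      unfold WW
      rw [lin_shc])
    simp only [shc_zero] at h2
    rw [UU_eq, f0] at h2
    exact h2

end

end Pool.Agent.KS6_61.RW
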