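import Pool.Graph.R_pool_sql_team_seeded_64922ed1.X127.SW.GC2
import Pool.Graph.R_pool_sql_team_seeded_64922ed1.X127.SW.Spec
import Pool.Graph.R_pool_sql_team_seeded_64922ed1.X127.SW.Red
import Pool.Agent.KS6_61.RW.Bo

/-!
# The spectral measure of a finite combination of translates of a stationary wave
-/

set_option autoImplicit false
set_option linter.unusedSectionVars false
open MeasureTheory Filter Topology ProbabilityTheory
open scoped ENNReal NNReal ComplexConjugate ContDiff

namespace Pool.Agent.KS6_61.RW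

noncomputable section

open Pool.Agent.X127.SW Pool.Agent.Y139.SW

variable {d : ℕ} {S : Type*} [MeasurableSpace S] {P : Measure S} [IsProbabilityMeasure P]

/-- spectral measure on the unit sphere, square integrability -/
theorem wave_spec {F : S → E d → ℝ} (mF : ∀ y, Measurable fun s => F s y)
    (sF : ∀ s, ContDiff ℝ ∞ (F s)) (eF : ∀ s y, Lap (F s) y + F s y = 0)
    (st : ∀ x : E d, P.map (fun s y => F s (y + x)) = P.map (fun s y => F s y))
    (l2 : Integrable (fun s => F s 0 ^ 2) P) {n : ℕ} (c : Fin n → ℝ) (x : Fin n → E d) :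
    (∀ y, MemLp (fun s => ∑ i, c i * F s (y + x i)) 2 P) ∧
    ∃ ρ : Measure (E d), IsFiniteMeasure ρ ∧ (∀ᵐ ξ ∂ρ, ‖ξ‖ = 1) ∧ ∀ y z : E d,
      ((∫ s, (∑ i, c i * F s (y + x i)) * (∑ i, c i * F s (z + x i)) ∂P : ℝ) : ℂ) =
        charFun ρ (z - y) := by
  obtain ⟨Ψ, mΨ, v1, hQ, hτ, W⟩ := red (P := P) mF sF eF st l2
  have Wc := Pool.Agent.X127.SW.comb hτ W c x
  have tr : ∀ y s, (fun (f : Sp d) (y : E d) => ∑ i, c i * f.1 (y + x i)) (Ψ s) y =
      ∑ i, c i * F s (y + x i) := by
    intro y s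
    simp only [v1]
  constructor
  · intro y
    have m1 : Measurable fun s => ∑ i, c i * F s (y + x i) :=
      Finset.measurable_sum _ fun i _ => measurable_const.mul (mF _)
    rw [memLp_two_iff_integrable_sq m1.aestronglyMeasurable]
    have h1 := sqi hτ Wc y
    have m2 : Measurable fun f : Sp d => ∑ i, c i * f.1 (y + x i) := Wc.sf.meas y
    have h2 := (integrable_map_measure (m2.pow_const 2).aestronglyMeasurable
      mΨ.aemeasurable).1 h1
    refine h2.congr (ae_of_all _ fun s => ?_)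
    show (∑ i, c i * (Ψ s).1 (y + x i)) ^ 2 = _
    rw [v1]
  · obtain ⟨σ, hσ, hs⟩ := exists_spec hτ Wc
    have hsp := spec_sphere hτ Wc hs
    obtain ⟨ρ, hρ, hρ1, hρ2⟩ := exists_symm σ hsp
    refine ⟨ρ, hρ, hρ1, fun y z => ?_⟩
    rw [hρ2, cf_re, hs, ← cov_xy hτ Wc y z]
    congr 1
    have m2 : ∀ y : E d, Measurable fun f : Sp d => ∑ i, c i * f.1 (y + x i) :=
      fun y => Wc.sf.meas y
    have m3 : Measurable fun f : Sp d => (∑ i, c i * f.1 (y + x i)) *
        (∑ i, c i * f.1 (z + x i)) := (m2 y).mul (m2 z)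
    rw [integral_map mΨ.aemeasurable m3.aestronglyMeasurable]
    simp only [v1]

end

end Pool.Agent.KS6_61.RW
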